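import Pool.Agent.Y773.IQ.Ring
import Pool.Agent.Y773.HG.Defs
import Pool.Agent.Y767.HC.Grp

/-! # Ray classes modulo an arbitrary ideal, fields without real places -/

set_option autoImplicit false
set_option linter.unusedSectionVars false

open NumberField

namespace Pool.Agent.Y773.IQ

open Pool.Agent.Y773 (TPos)
open Pool.Agent.Y767 (Mq Mq_cop Mq_ne_bot Mq_cancel isUnit_mk coprime_of_isUnit Cls cls cls_eq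
  cls_of_mul cls_pi cls_div ext_mon)

section

variable {K : Type} [Field K] [NumberField K]

lemma ne_zero_of_cop {𝔮 : Ideal (𝓞 K)} (h𝔮 : 𝔮 ≠ ⊤) {x : 𝓞 K} (h : IsCoprime (Ideal.span {x}) 𝔮) :
    x ≠ 0 := by
  rintro rfl
  rw [Ideal.span_singleton_eq_bot.mpr rfl, Ideal.isCoprime_iff_sup_eq, bot_sup_eq] at h
  exact h𝔮 h

lemma cop_mono {𝔞 𝔮 𝔣 : Ideal (𝓞 K)} (h : 𝔮 ≤ 𝔣) (h1 : IsCoprime 𝔞 𝔮) : IsCoprime 𝔞 𝔣 := by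
  rw [Ideal.isCoprime_iff_sup_eq] at h1 ⊢
  exact top_le_iff.mp (h1 ▸ sup_le_sup_left h 𝔞)

lemma cop_one {𝔮 : Ideal (𝓞 K)} {x : 𝓞 K} (h : x - 1 ∈ 𝔮) : IsCoprime (Ideal.span {x}) 𝔮 := by
  rw [Ideal.isCoprime_iff_exists]
  exact ⟨x, Ideal.mem_span_singleton_self x, 1 - x, by rw [← neg_sub]; exact neg_mem h, by ring⟩

lemma cop_congr {𝔮 : Ideal (𝓞 K)} {x y : 𝓞 K} (h : x - y ∈ 𝔮) (hy : IsCoprime (Ideal.span {y}) 𝔮) :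
    IsCoprime (Ideal.span {x}) 𝔮 := by
  apply coprime_of_isUnit
  rw [(Ideal.Quotient.eq).mpr h]
  exact isUnit_mk hy

lemma cop_mul {𝔮 : Ideal (𝓞 K)} {x y : 𝓞 K} (hx : IsCoprime (Ideal.span {x}) 𝔮)
    (hy : IsCoprime (Ideal.span {y}) 𝔮) : IsCoprime (Ideal.span {x * y}) 𝔮 := by
  rw [← Ideal.span_singleton_mul_span_singleton]
  exact IsCoprime.mul_left hx hy

/-- lifting of residue classes prime to the modulus -/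
lemma exists_cop_lift {𝔣 𝔮 : Ideal (𝓞 K)} (h : 𝔮 ≤ 𝔣) (h𝔮 : 𝔮 ≠ ⊥) {z : 𝓞 K}
    (hz : IsCoprime (Ideal.span {z}) 𝔣) : ∃ z' : 𝓞 K, IsCoprime (Ideal.span {z'}) 𝔮 ∧ z' - z ∈ 𝔣 := by
  have : Finite (𝓞 K ⧸ 𝔮) := Ideal.finiteQuotientOfFreeOfNeBot 𝔮 h𝔮
  obtain ⟨v, hv, hvz⟩ := exists_unit_lift (Ideal.Quotient.factor h) (Ideal.Quotient.factor_surjective h)
    (isUnit_mk hz)
  obtain ⟨z', rfl⟩ := Ideal.Quotient.mk_surjective v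
  refine ⟨z', coprime_of_isUnit hv, ?_⟩
  rw [← Ideal.Quotient.eq, ← hvz, Ideal.Quotient.factor_mk]

lemma exists_inv {𝔮 : Ideal (𝓞 K)} {x : 𝓞 K} (h : IsCoprime (Ideal.span {x}) 𝔮) :
    ∃ w : 𝓞 K, w * x - 1 ∈ 𝔮 := by
  obtain ⟨v, hv⟩ := (isUnit_mk h).exists_left_inv
  obtain ⟨w, rfl⟩ := Ideal.Quotient.mk_surjective v
  refine ⟨w, ?_⟩
  rw [← Ideal.Quotient.eq, map_mul, hv, map_one]

lemma exists_mem_one {𝔟 𝔮 : Ideal (𝓞 K)} (h : IsCoprime 𝔟 𝔮) :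
    ∃ (x : 𝓞 K) (𝔠 : Ideal (𝓞 K)), x - 1 ∈ 𝔮 ∧ Ideal.span {x} = 𝔟 * 𝔠 ∧ IsCoprime 𝔠 𝔮 := by
  obtain ⟨x, hx, b, hb, hab⟩ := Ideal.isCoprime_iff_exists.mp h
  have h1 : x - 1 ∈ 𝔮 := by
    have : x - 1 = -b := by rw [← hab]; ring
    rw [this]; exact neg_mem hb
  obtain ⟨𝔠, h𝔠⟩ := Ideal.dvd_iff_le.mpr ((Ideal.span_singleton_le_iff_mem 𝔟).mpr hx)
  refine ⟨x, 𝔠, h1, h𝔠, ?_⟩
  have h2 := cop_one h1
  rw [h𝔠] at h2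
  exact (IsCoprime.mul_left_iff.mp h2).2

/-- **moving lemma** -/
lemma exists_moving {𝔠 𝔣 𝔮 : Ideal (𝓞 K)} (h : 𝔮 ≤ 𝔣) (h𝔮 : 𝔮 ≠ ⊥) (h𝔠 : 𝔠 ≠ ⊥)
    (hc : IsCoprime 𝔠 𝔣) : ∃ (y : 𝓞 K) (𝔟 : Ideal (𝓞 K)), y - 1 ∈ 𝔣 ∧ Ideal.span {y} = 𝔠 * 𝔟 ∧
      IsCoprime 𝔟 𝔮 := by
  obtain ⟨a, ha⟩ := IsDedekindDomain.exists_sup_span_eq (I := 𝔠 * 𝔮) (J := 𝔠) Ideal.mul_le_left
    (mul_ne_zero h𝔠 h𝔮)
  have ha1 : a ∈ 𝔠 := by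
    rw [← ha]; exact Ideal.mem_sup_right (Ideal.mem_span_singleton_self a)
  obtain ⟨𝔟, h𝔟⟩ := Ideal.dvd_iff_le.mpr ((Ideal.span_singleton_le_iff_mem 𝔠).mpr ha1)
  have h1 : IsCoprime 𝔟 𝔮 := by
    rw [Ideal.isCoprime_iff_sup_eq, ← Ideal.one_eq_top]
    apply mul_left_cancel₀ h𝔠
    rw [mul_one, Ideal.mul_sup, ← h𝔟, sup_comm]
    exact ha
  have h2 : IsCoprime (Ideal.span {a}) 𝔣 := by
    rw [h𝔟]; exact IsCoprime.mul_left hc (cop_mono h h1)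
  obtain ⟨w, hw⟩ := exists_inv h2
  have hw1 : IsCoprime (Ideal.span {w}) 𝔣 := by
    have := cop_one hw
    rw [← Ideal.span_singleton_mul_span_singleton] at this
    exact (IsCoprime.mul_left_iff.mp this).1
  obtain ⟨z, hz1, hz2⟩ := exists_cop_lift h h𝔮 hw1
  refine ⟨z * a, 𝔟 * Ideal.span {z}, ?_, ?_, IsCoprime.mul_left h1 hz1⟩
  · have : z * a - 1 = (z - w) * a + (w * a - 1) := by ring
    rw [this]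
    exact add_mem (Ideal.mul_mem_right _ _ hz2) hw
  · rw [← mul_assoc, ← h𝔟, Ideal.span_singleton_mul_span_singleton, mul_comm z a]

/-- a character depends only on the residue class -/
lemma prim_congr (hT : ∀ x : 𝓞 K, TPos K x) {𝔣 : Ideal (𝓞 K)} {ψ : Ideal (𝓞 K) →*₀ ℂ}
    (h : G.IsPrimChar K 𝔣 ψ) (ht : 𝔣 ≠ ⊤) {x y : 𝓞 K} (hxy : x - y ∈ 𝔣)
    (hy : IsCoprime (Ideal.span {y}) 𝔣) : ψ (Ideal.span {x}) = ψ (Ideal.span {y}) := by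
  have hx := cop_congr hxy hy
  obtain ⟨w, hw⟩ := exists_inv hx
  have hw' : w * y - 1 ∈ 𝔣 := by
    have : w * y - 1 = (w * x - 1) - w * (x - y) := by ring
    rw [this]; exact sub_mem hw (Ideal.mul_mem_left _ _ hxy)
  have h1 := h.ray (w * x) (ne_zero_of_cop ht (cop_one hw)) hw (hT _)
  have h2 := h.ray (w * y) (ne_zero_of_cop ht (cop_one hw')) hw' (hT _)
  rw [← Ideal.span_singleton_mul_span_singleton, map_mul] at h1 h2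
  have h3 : ψ (Ideal.span {w}) ≠ 0 := by
    intro h4; rw [h4, zero_mul] at h1; exact zero_ne_one h1
  exact mul_left_cancel₀ h3 (h1.trans h2.symm)

lemma cond_le (hT : ∀ x : 𝓞 K, TPos K x) {𝔮 𝔣 𝔣' : Ideal (𝓞 K)} {ψ ψ' : Ideal (𝓞 K) →*₀ ℂ}
    (hq : 𝔮 ≠ ⊥) (h : G.IsPrimChar K 𝔣 ψ) (h' : G.IsPrimChar K 𝔣' ψ') (hd : 𝔣 ∣ 𝔮) (hd' : 𝔣' ∣ 𝔮)
    (ht : 𝔣 ≠ ⊤) (ht' : 𝔣' ≠ ⊤) (he : ∀ 𝔞, IsCoprime 𝔞 𝔮 → ψ 𝔞 = ψ' 𝔞) : 𝔣' ≤ 𝔣 := by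
  have hqf := Ideal.dvd_iff_le.mp hd
  have hqf' := Ideal.dvd_iff_le.mp hd'
  by_contra hcon
  have hne : 𝔣 ⊔ 𝔣' ≠ 𝔣 := fun h1 => hcon (h1 ▸ le_sup_right)
  obtain ⟨x, hx1, -, hx2, hx3⟩ := h.prim (𝔣 ⊔ 𝔣') (Ideal.dvd_iff_le.mpr le_sup_left) hne
  obtain ⟨f, hf, f', hf', hff⟩ := Submodule.mem_sup.mp hx1
  apply hx3
  have hz : x - f = 1 + f' := by linear_combination -hff
  have hz1 : IsCoprime (Ideal.span {x - f}) 𝔣 := cop_congr (by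
    have : x - f - x = -f := by ring
    rw [this]; exact neg_mem hf) hx2
  have hz2 : IsCoprime (Ideal.span {x - f}) 𝔣' := by
    rw [hz]; exact cop_one (by rw [add_sub_cancel_left]; exact hf')
  have hz3 : IsCoprime (Ideal.span {x - f}) (𝔣 ⊓ 𝔣') :=
    cop_mono Ideal.mul_le_inf (IsCoprime.mul_right hz1 hz2)
  obtain ⟨z', hz4, hz5⟩ := exists_cop_lift (le_inf hqf hqf') hq hz3
  have hz6 : z' - x ∈ 𝔣 := by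
    have : z' - x = (z' - (x - f)) - f := by ring
    rw [this]; exact sub_mem (inf_le_left (b := 𝔣') hz5) hf
  have hz7 : z' - 1 ∈ 𝔣' := by
    have : z' - 1 = (z' - (x - f)) + f' := by rw [hz]; ring
    rw [this]; exact add_mem (inf_le_right (a := 𝔣) hz5) hf'
  rw [← prim_congr hT h ht hz6 hx2, he _ hz4]
  exact h'.ray z' (ne_zero_of_cop ht' (cop_one hz7)) hz7 (hT _)

/-- **a primitive character is determined by its values on the ideals prime to a multiple of its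
conductor** -/
theorem prim_unique (hT : ∀ x : 𝓞 K, TPos K x) {𝔮 𝔣 𝔣' : Ideal (𝓞 K)} {ψ ψ' : Ideal (𝓞 K) →*₀ ℂ}
    (hq : 𝔮 ≠ ⊥) (h : G.IsPrimChar K 𝔣 ψ) (h' : G.IsPrimChar K 𝔣' ψ') (hd : 𝔣 ∣ 𝔮) (hd' : 𝔣' ∣ 𝔮)
    (ht : 𝔣 ≠ ⊤) (ht' : 𝔣' ≠ ⊤) (he : ∀ 𝔞, IsCoprime 𝔞 𝔮 → ψ 𝔞 = ψ' 𝔞) : ψ = ψ' := by
  have h1 := cond_le hT hq h h' hd hd' ht ht' he
  have h2 := cond_le hT hq h' h hd' hd ht' ht (fun 𝔞 ha => (he 𝔞 ha).symm)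
  obtain rfl : 𝔣 = 𝔣' := le_antisymm h2 h1
  have hqf := Ideal.dvd_iff_le.mp hd
  ext 𝔞
  by_cases h0 : 𝔞 = ⊥
  · rw [h0, ← Ideal.zero_eq_bot, map_zero, map_zero]
  by_cases hc : IsCoprime 𝔞 𝔣
  · obtain ⟨x, 𝔠, hx1, hx2, hx3⟩ := exists_mem_one hc
    have h𝔠 : 𝔠 ≠ ⊥ := by
      rintro rfl
      rw [Ideal.isCoprime_iff_sup_eq, bot_sup_eq] at hx3
      exact ht hx3
    obtain ⟨y, 𝔟, hy1, hy2, hy3⟩ := exists_moving hqf hq h𝔠 hx3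
    have e1 : ∀ (φ : Ideal (𝓞 K) →*₀ ℂ), G.IsPrimChar K 𝔣 φ → φ 𝔞 = φ 𝔟 := by
      intro φ hφ
      have h3 := hφ.ray x (ne_zero_of_cop ht (cop_one hx1)) hx1 (hT _)
      have h4 := hφ.ray y (ne_zero_of_cop ht (cop_one hy1)) hy1 (hT _)
      rw [hx2, map_mul, mul_comm] at h3
      rw [hy2, map_mul] at h4
      have h5 : φ 𝔠 ≠ 0 := by
        intro h6; rw [h6, zero_mul] at h3; exact zero_ne_one h3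
      exact mul_left_cancel₀ h5 (h3.trans h4.symm)
    rw [e1 ψ h, e1 ψ' h', he 𝔟 hy3]
  · have h3 : ψ 𝔞 = 0 := by
      by_contra h4; exact hc ((h.supp 𝔞 h0).mp h4)
    have h5 : ψ' 𝔞 = 0 := by
      by_contra h4; exact hc ((h'.supp 𝔞 h0).mp h4)
    rw [h3, h5]

/-- nonzero integers congruent to one -/
def T1 {𝔮 : Ideal (𝓞 K)} (_h : 𝔮 ≠ ⊤) : Submonoid (𝓞 K) where
  carrier := {x | x - 1 ∈ 𝔮}
  mul_mem' {x y} hx hy := by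
    change x * y - 1 ∈ 𝔮
    have : x * y - 1 = (x - 1) * y + (y - 1) := by ring
    rw [this]
    exact add_mem (Ideal.mul_mem_right _ _ hx) hy
  one_mem' := by
    change (1 : 𝓞 K) - 1 ∈ 𝔮
    rw [sub_self]; exact zero_mem _

lemma T1_cop {𝔮 : Ideal (𝓞 K)} {h : 𝔮 ≠ ⊤} (x : T1 h) : IsCoprime (Ideal.span {(x : 𝓞 K)}) 𝔮 :=
  cop_one x.2

/-- the principal ideals generated by integers congruent to one -/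
def pi1 {𝔮 : Ideal (𝓞 K)} (h : 𝔮 ≠ ⊤) : T1 h →* Mq 𝔮 where
  toFun x := ⟨Ideal.span {(x : 𝓞 K)}, T1_cop x⟩
  map_one' := by
    apply Subtype.ext
    change Ideal.span {(1 : 𝓞 K)} = 1
    rw [Ideal.span_singleton_one, Ideal.one_eq_top]
  map_mul' x y := by
    apply Subtype.ext
    change Ideal.span {(x : 𝓞 K) * (y : 𝓞 K)} = _
    rw [← Ideal.span_singleton_mul_span_singleton]
    rfl

lemma pi1_coe {𝔮 : Ideal (𝓞 K)} {h : 𝔮 ≠ ⊤} (x : T1 h) : ((pi1 h x : Mq 𝔮) : Ideal (𝓞 K)) =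
    Ideal.span {(x : 𝓞 K)} := rfl

/-- extension by zero -/
noncomputable def ofM' {𝔮 : Ideal (𝓞 K)} (htop : 𝔮 ≠ ⊤) (F : Mq 𝔮 →* ℂˣ) :
    Ideal (𝓞 K) →*₀ ℂ := by
  classical
  exact {
    toFun := fun 𝔞 => if h : IsCoprime 𝔞 𝔮 then ((F ⟨𝔞, h⟩ : ℂˣ) : ℂ) else 0
    map_zero' := by
      rw [dif_neg]
      intro h
      rw [Ideal.zero_eq_bot, Ideal.isCoprime_iff_sup_eq, bot_sup_eq] at h
      exact htop h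
    map_one' := by
      rw [dif_pos isCoprime_one_left]
      have : (⟨1, isCoprime_one_left⟩ : Mq 𝔮) = 1 := rfl
      rw [this, map_one, Units.val_one]
    map_mul' := fun 𝔞 𝔟 => by
      by_cases h1 : IsCoprime 𝔞 𝔮
      · by_cases h2 : IsCoprime 𝔟 𝔮
        · rw [dif_pos h1, dif_pos h2, dif_pos (h1.mul_left h2), ← Units.val_mul, ← map_mul]
          rfl
        · rw [dif_neg h2, dif_neg (fun h => h2 (IsCoprime.mul_left_iff.mp h).2), mul_zero]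
      · rw [dif_neg h1, dif_neg (fun h => h1 (IsCoprime.mul_left_iff.mp h).1), zero_mul] }

open Classical in
lemma ofM'_pos {𝔮 : Ideal (𝓞 K)} (htop : 𝔮 ≠ ⊤) (F : Mq 𝔮 →* ℂˣ) {𝔞 : Ideal (𝓞 K)}
    (h : IsCoprime 𝔞 𝔮) : ofM' htop F 𝔞 = ((F ⟨𝔞, h⟩ : ℂˣ) : ℂ) := by
  change (if h : IsCoprime 𝔞 𝔮 then ((F ⟨𝔞, h⟩ : ℂˣ) : ℂ) else 0) = _
  rw [dif_pos h]

open Classical in
lemma ofM'_supp {𝔮 : Ideal (𝓞 K)} (htop : 𝔮 ≠ ⊤) (F : Mq 𝔮 →* ℂˣ) (𝔞 : Ideal (𝓞 K)) :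
    ofM' htop F 𝔞 ≠ 0 ↔ IsCoprime 𝔞 𝔮 := by
  change (if h : IsCoprime 𝔞 𝔮 then ((F ⟨𝔞, h⟩ : ℂˣ) : ℂ) else 0) ≠ 0 ↔ _
  by_cases h : IsCoprime 𝔞 𝔮
  · rw [dif_pos h]
    exact ⟨fun _ => h, fun _ => Units.ne_zero _⟩
  · rw [dif_neg h]
    exact ⟨fun h1 => absurd rfl h1, fun h1 => absurd h1 h⟩

lemma absNorm_pos' {𝔮 : Ideal (𝓞 K)} (h : 𝔮 ≠ ⊥) : 0 < Ideal.absNorm 𝔮 :=
  Nat.pos_of_ne_zero (by rwa [Ne, Ideal.absNorm_eq_zero_iff])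

lemma absNorm_lt {𝔤 𝔣 : Ideal (𝓞 K)} (h𝔣 : 𝔣 ≠ ⊥) (h : 𝔤 ∣ 𝔣) (hne : 𝔤 ≠ 𝔣) :
    Ideal.absNorm 𝔤 < Ideal.absNorm 𝔣 := by
  obtain ⟨𝔥, rfl⟩ := h
  have h1 : 𝔤 ≠ ⊥ := by
    rintro rfl
    exact h𝔣 (by rw [← Ideal.zero_eq_bot, zero_mul])
  have h2 : 𝔥 ≠ ⊥ := by
    rintro rfl
    exact h𝔣 (by rw [← Ideal.zero_eq_bot, mul_zero])
  have h3 : Ideal.absNorm 𝔥 ≠ 1 := by
    rw [Ne, Ideal.absNorm_eq_one_iff]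
    rintro rfl
    exact hne (by rw [← Ideal.one_eq_top, mul_one])
  have h4 := absNorm_pos' h1
  have h5 := absNorm_pos' h2
  rw [map_mul]
  nlinarith [show 2 ≤ Ideal.absNorm 𝔥 by omega]

/-- the map `(𝔞, x) ↦ 𝔞 (x)` -/
noncomputable def pi2 {𝔮 𝔣 : Ideal (𝓞 K)} (h : 𝔮 ≤ 𝔣) (hf : 𝔣 ≠ ⊤) : (Mq 𝔮 × T1 hf) →* Mq 𝔣 :=
  (Submonoid.inclusion (show Mq 𝔮 ≤ Mq 𝔣 from fun _ h1 => cop_mono h h1)).coprod (pi1 hf)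

lemma pi2_coe {𝔮 𝔣 : Ideal (𝓞 K)} (h : 𝔮 ≤ 𝔣) (hf : 𝔣 ≠ ⊤) (𝔞 : Mq 𝔮) (x : T1 hf) :
    ((pi2 h hf (𝔞, x) : Mq 𝔣) : Ideal (𝓞 K)) = (𝔞 : Ideal (𝓞 K)) * Ideal.span {(x : 𝓞 K)} := by
  unfold pi2
  rw [MonoidHom.coprod_apply, Submonoid.coe_mul, pi1_coe, Submonoid.coe_inclusion]

/-- the key step: two ideals prime to `𝔮` in the same ray class modulo `𝔣` -/
lemma key_step {𝔮 𝔣 : Ideal (𝓞 K)} (hqf : 𝔮 ≤ 𝔣) (hf : 𝔣 ≠ ⊤) {𝔞 𝔟 : Ideal (𝓞 K)}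
    (h𝔞 : IsCoprime 𝔞 𝔮) (h𝔟 : IsCoprime 𝔟 𝔮) {x y : 𝓞 K} (hx : x - 1 ∈ 𝔣) (hy : y - 1 ∈ 𝔣)
    (hab : 𝔞 * Ideal.span {x} = 𝔟 * Ideal.span {y}) :
    ∃ x' y' : 𝓞 K, x' - 1 ∈ 𝔮 ∧ IsCoprime (Ideal.span {y'}) 𝔮 ∧ y' - 1 ∈ 𝔣 ∧
      𝔞 * Ideal.span {x'} = 𝔟 * Ideal.span {y'} := by
  obtain ⟨x', 𝔠, hx1, hx2, hx3⟩ := exists_mem_one h𝔟
  have h2 : 𝔞 * 𝔠 * Ideal.span {x} = Ideal.span {x' * y} := by
    rw [← Ideal.span_singleton_mul_span_singleton, hx2, mul_right_comm, hab]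
    ring
  have h3 : x' * y ∈ Ideal.span {x} := by
    have h4 : Ideal.span {x' * y} ≤ Ideal.span {x} := by
      rw [← h2]; exact Ideal.mul_le_right
    exact h4 (Ideal.mem_span_singleton_self _)
  obtain ⟨y', hy'⟩ := Ideal.mem_span_singleton'.mp h3
  have hx0 : x ≠ 0 := ne_zero_of_cop hf (cop_one hx)
  have h5 : 𝔞 * 𝔠 = Ideal.span {y'} := by
    apply mul_right_cancel₀ (b := Ideal.span {x})
    · rw [Ne, Ideal.zero_eq_bot, Ideal.span_singleton_eq_bot]; exact hx0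
    · rw [h2, Ideal.span_singleton_mul_span_singleton, hy']
  refine ⟨x', y', hx1, ?_, ?_, ?_⟩
  · rw [← h5]; exact IsCoprime.mul_left h𝔞 hx3
  · have e1 := (Ideal.Quotient.eq (I := 𝔣)).mpr hx
    have e2 := (Ideal.Quotient.eq (I := 𝔣)).mpr hy
    have e3 := (Ideal.Quotient.eq (I := 𝔣)).mpr (hqf hx1)
    rw [← Ideal.Quotient.eq]
    have e4 := congrArg (Ideal.Quotient.mk 𝔣) hy'
    rw [map_mul, map_mul, e1, e2, e3, map_one, mul_one, mul_one] at e4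
    rw [e4, map_one]
  · rw [hx2, ← h5]; ring

theorem exists_ext {𝔮 𝔣 : Ideal (𝓞 K)} (hqf : 𝔮 ≤ 𝔣) (htop : 𝔮 ≠ ⊤) (hf : 𝔣 ≠ ⊤)
    (F : Mq 𝔮 →* ℂˣ) (hF : ∀ x : T1 htop, F (pi1 htop x) = 1)
    (h1 : ∀ (x : 𝓞 K) (hx : IsCoprime (Ideal.span {x}) 𝔮), x - 1 ∈ 𝔣 → F ⟨Ideal.span {x}, hx⟩ = 1) :
    ∃ F' : Mq 𝔣 →* ℂˣ, ∀ p : Mq 𝔮 × T1 hf, F' (pi2 hqf hf p) = F p.1 := by
  have := Mq_cancel hf
  refine ext_mon (pi2 hqf hf) (F.comp (MonoidHom.fst _ _)) ?_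
  rintro ⟨𝔞, x⟩ ⟨𝔟, y⟩ hab
  rw [MonoidHom.comp_apply, MonoidHom.comp_apply, MonoidHom.coe_fst]
  have hab' := congrArg Subtype.val hab
  rw [pi2_coe, pi2_coe] at hab'
  obtain ⟨x', y', hx1, hy1, hy2, hxy⟩ := key_step hqf hf (Mq_cop 𝔞) (Mq_cop 𝔟) x.2 y.2 hab'
  have h6 := h1 y' hy1 hy2
  have h7 := hF ⟨x', hx1⟩
  have h8 : 𝔞 * pi1 htop ⟨x', hx1⟩ = 𝔟 * ⟨Ideal.span {y'}, hy1⟩ := by
    apply Subtype.ext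
    rw [Submonoid.coe_mul, Submonoid.coe_mul, pi1_coe]
    exact hxy
  have h9 := congrArg F h8
  rwa [map_mul, map_mul, h6, h7, mul_one, mul_one] at h9

/-- **every character of the ray class group modulo `𝔮` which is non-trivial on principal ideals
is induced by a primitive character of conductor `≠ 1`** -/
theorem exists_prim {𝔮 : Ideal (𝓞 K)} (hbot : 𝔮 ≠ ⊥) (htop : 𝔮 ≠ ⊤) (F : Mq 𝔮 →* ℂˣ)
    (hF : ∀ x : T1 htop, F (pi1 htop x) = 1) :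
    (∀ (x : 𝓞 K) (hx : IsCoprime (Ideal.span {x}) 𝔮), F ⟨Ideal.span {x}, hx⟩ = 1) ∨
    ∃ (𝔣 : Ideal (𝓞 K)) (ψ : Ideal (𝓞 K) →*₀ ℂ), 𝔣 ∣ 𝔮 ∧ 𝔣 ≠ ⊤ ∧ ((∀ x : 𝓞 K, TPos K x) →
      G.IsPrimChar K 𝔣 ψ) ∧ ∀ x : Mq 𝔮, ψ (x : Ideal (𝓞 K)) = ((F x : ℂˣ) : ℂ) := by
  obtain ⟨P, hP⟩ : ∃ P : Set (Ideal (𝓞 K)), ∀ 𝔣, 𝔣 ∈ P ↔ (𝔣 ∣ 𝔮 ∧ ∀ (x : 𝓞 K)
    (hx : IsCoprime (Ideal.span {x}) 𝔮), x - 1 ∈ 𝔣 → F ⟨Ideal.span {x}, hx⟩ = 1) :=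
    ⟨{𝔣 | _}, fun 𝔣 => Iff.rfl⟩
  have hne : P.Nonempty := ⟨𝔮, (hP 𝔮).mpr ⟨dvd_refl _, fun x hx h1 => hF ⟨x, h1⟩⟩⟩
  obtain ⟨𝔣, h𝔣, hmin⟩ := (measure (fun 𝔣 : Ideal (𝓞 K) => Ideal.absNorm 𝔣)).wf.has_min P hne
  obtain ⟨hd, h1⟩ := (hP 𝔣).mp h𝔣
  by_cases hf : 𝔣 = ⊤
  · left
    intro x hx
    exact h1 x hx (by rw [hf]; exact Submodule.mem_top)
  right
  have hqf := Ideal.dvd_iff_le.mp hd
  have hfb : 𝔣 ≠ ⊥ := by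
    rintro rfl
    exact hbot (le_bot_iff.mp hqf)
  obtain ⟨F', hF'⟩ := exists_ext hqf htop hf F hF h1
  have hres : ∀ x : Mq 𝔮, ∀ h : IsCoprime (x : Ideal (𝓞 K)) 𝔣, F' ⟨(x : Ideal (𝓞 K)), h⟩ = F x := by
    intro x h
    rw [← hF' (x, 1)]
    congr 1
    apply Subtype.ext
    rw [pi2_coe, Submonoid.coe_one, Ideal.span_singleton_one, ← Ideal.one_eq_top, mul_one]
  refine ⟨𝔣, ofM' hf F', hd, hf, fun hT => ⟨hfb, fun 𝔞 _ => ofM'_supp hf F' 𝔞, ?_, ?_⟩, ?_⟩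
  · intro x hx0 hx1 _
    rw [ofM'_pos hf F' (cop_one hx1)]
    have h2 := hF' (1, ⟨x, hx1⟩)
    have h3 : pi2 hqf hf (1, ⟨x, hx1⟩) = ⟨Ideal.span {x}, cop_one hx1⟩ := by
      apply Subtype.ext
      rw [pi2_coe, Submonoid.coe_one, one_mul]
    rw [h3, map_one] at h2
    rw [h2, Units.val_one]
  · intro 𝔤 hg hgne
    have hnP : ¬ 𝔤 ∈ P := fun hP' => hmin 𝔤 hP' (absNorm_lt hfb hg hgne)
    rw [hP, not_and] at hnP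
    have h2 := hnP (hg.trans hd)
    push Not at h2
    obtain ⟨x, hx, hx1, hx2⟩ := h2
    have hxf := cop_mono hqf hx
    refine ⟨x, hx1, hT x, hxf, ?_⟩
    rw [ofM'_pos hf F' hxf, hres ⟨Ideal.span {x}, hx⟩ hxf]
    intro h3
    exact hx2 (Units.ext h3)
  · intro x
    have hxf := cop_mono hqf (Mq_cop x)
    rw [ofM'_pos hf F' hxf, hres x hxf]

end

end Pool.Agent.Y773.IQ
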