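import Pool.Agent.Y773.IQ.Quad
import Pool.Agent.Y772.HC.Mer

/-! # The primitive characters of conductor dividing `𝔮` -/

set_option autoImplicit false
set_option linter.unusedSectionVars false

open NumberField

namespace Pool.Agent.Y773.IQ

open Pool.Agent.Y773 (TPos VM cc)
open Pool.Agent.Y772.DK (NN NN_finite cc_mul)
open Pool.Agent.Y767 (Mq Mq_cop Mq_ne_bot Cls cls cK)

section

variable {K : Type} [Field K] [NumberField K]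

/-- the primitive ray class characters of conductor dividing `𝔮` and different from `1` -/
def Fam (𝔮 : Ideal (𝓞 K)) : Set (Ideal (𝓞 K) →*₀ ℂ) :=
  {ψ | ∃ 𝔣 : Ideal (𝓞 K), 𝔣 ∣ 𝔮 ∧ 𝔣 ≠ ⊤ ∧ G.IsPrimChar K 𝔣 ψ}

lemma Fam_ne_zero {𝔮 : Ideal (𝓞 K)} (htop : 𝔮 ≠ ⊤) {ψ : Ideal (𝓞 K) →*₀ ℂ} (h : ψ ∈ Fam 𝔮)
    {𝔞 : Ideal (𝓞 K)} (h𝔞 : IsCoprime 𝔞 𝔮) : ψ 𝔞 ≠ 0 := by
  obtain ⟨𝔣, h1, h2, h3⟩ := h
  exact (h3.supp _ (Mq_ne_bot htop ⟨𝔞, h𝔞⟩)).mpr (cop_mono (Ideal.dvd_iff_le.mp h1) h𝔞)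

/-- the associated character of the monoid of the ideals prime to `𝔮` -/
noncomputable def toM' {𝔮 : Ideal (𝓞 K)} (ψ : Ideal (𝓞 K) →*₀ ℂ)
    (h : ∀ x : Mq 𝔮, ψ (x : Ideal (𝓞 K)) ≠ 0) : Mq 𝔮 →* ℂˣ where
  toFun x := Units.mk0 (ψ (x : Ideal (𝓞 K))) (h x)
  map_one' := by
    ext
    rw [Units.val_mk0, Submonoid.coe_one, map_one, Units.val_one]
  map_mul' x y := by
    ext
    rw [Units.val_mk0, Units.val_mul, Units.val_mk0, Units.val_mk0, Submonoid.coe_mul, map_mul]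

open Classical in
/-- the associated character of the monoid of the ideals prime to `𝔮` -/
noncomputable def tM (𝔮 : Ideal (𝓞 K)) (ψ : Ideal (𝓞 K) →*₀ ℂ) : Mq 𝔮 →* ℂˣ :=
  if h : ∀ x : Mq 𝔮, ψ (x : Ideal (𝓞 K)) ≠ 0 then toM' ψ h else 1

lemma tM_coe {𝔮 : Ideal (𝓞 K)} (htop : 𝔮 ≠ ⊤) {ψ : Ideal (𝓞 K) →*₀ ℂ} (h : ψ ∈ Fam 𝔮)
    (x : Mq 𝔮) : ((tM 𝔮 ψ x : ℂˣ) : ℂ) = ψ (x : Ideal (𝓞 K)) := by
  have h1 : ∀ x : Mq 𝔮, ψ (x : Ideal (𝓞 K)) ≠ 0 := fun x => Fam_ne_zero htop h (Mq_cop x)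
  unfold tM
  rw [dif_pos h1]
  rfl

lemma tM_mem {𝔮 : Ideal (𝓞 K)} (htop : 𝔮 ≠ ⊤) (hT : ∀ x : 𝓞 K, TPos K x)
    {ψ : Ideal (𝓞 K) →*₀ ℂ} (h : ψ ∈ Fam 𝔮) : tM 𝔮 ψ ∈ D1 htop := by
  intro x
  ext
  rw [tM_coe htop h, pi1_coe, Units.val_one]
  obtain ⟨𝔣, h1, h2, h3⟩ := h
  exact h3.ray x (ne_zero_of_cop htop (T1_cop x)) (Ideal.dvd_iff_le.mp h1 x.2) (hT _)

lemma tM_inj {𝔮 : Ideal (𝓞 K)} (hbot : 𝔮 ≠ ⊥) (htop : 𝔮 ≠ ⊤) (hT : ∀ x : 𝓞 K, TPos K x) :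
    Set.InjOn (tM 𝔮) (Fam 𝔮) := by
  intro ψ h ψ' h' he
  have he' : ∀ 𝔞, IsCoprime 𝔞 𝔮 → ψ 𝔞 = ψ' 𝔞 := by
    intro 𝔞 h𝔞
    have h1 := tM_coe htop h ⟨𝔞, h𝔞⟩
    have h2 := tM_coe htop h' ⟨𝔞, h𝔞⟩
    rw [he] at h1
    exact h1.symm.trans h2
  obtain ⟨𝔣, h1, h2, h3⟩ := h
  obtain ⟨𝔣', h1', h2', h3'⟩ := h'
  exact prim_unique hT hbot h3 h3' h1 h1' h2 h2' he'

lemma Fam_finite {𝔮 : Ideal (𝓞 K)} (hbot : 𝔮 ≠ ⊥) (htop : 𝔮 ≠ ⊤) (hT : ∀ x : 𝓞 K, TPos K x) :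
    (Fam 𝔮).Finite ∧ (Fam 𝔮).ncard ≤ Nat.card (Cls (pi1 htop)) := by
  obtain ⟨h1, h2⟩ := D1_card hbot htop
  have hm : Set.MapsTo (tM 𝔮) (Fam 𝔮) (D1 htop) := fun ψ h => tM_mem htop hT h
  refine ⟨Set.Finite.of_injOn hm (tM_inj hbot htop hT) h1, ?_⟩
  rw [← h2]
  exact Set.ncard_le_ncard_of_injOn _ hm (tM_inj hbot htop hT) h1

lemma Fam_lower {𝔮 : Ideal (𝓞 K)} (hbot : 𝔮 ≠ ⊥) (htop : 𝔮 ≠ ⊤) (hT : ∀ x : 𝓞 K, TPos K x) :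
    Nat.card (Cls (pi1 htop)) ≤ (Fam 𝔮).ncard + Nat.card (ClassGroup (𝓞 K)) := by
  obtain ⟨h1, h2⟩ := D1_card hbot htop
  have hsub : D1 htop ⊆ tM 𝔮 '' Fam 𝔮 ∪ D0 𝔮 := by
    intro F hF
    rcases exists_prim hbot htop F hF with h | ⟨𝔣, ψ, h3, h4, h5, h6⟩
    · exact Or.inr h
    · left
      have hψ : ψ ∈ Fam 𝔮 := ⟨𝔣, h3, h4, h5 hT⟩
      refine ⟨ψ, hψ, ?_⟩
      ext x
      rw [tM_coe htop hψ, h6]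
  have hf := (Fam_finite hbot htop hT).1
  rw [← h2]
  refine (Set.ncard_le_ncard hsub ((hf.image _).union (h1.subset (D0_sub htop)))).trans ?_
  refine (Set.ncard_union_le _ _).trans ?_
  exact Nat.add_le_add (Set.ncard_image_le hf) (D0_card htop hT)

lemma card_units_le_norm {𝔮 : Ideal (𝓞 K)} (hbot : 𝔮 ≠ ⊥) :
    Nat.card (𝓞 K ⧸ 𝔮)ˣ ≤ Ideal.absNorm 𝔮 := by
  have : Finite (𝓞 K ⧸ 𝔮) := Ideal.finiteQuotientOfFreeOfNeBot 𝔮 hbot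
  have h1 : Nat.card (𝓞 K ⧸ 𝔮)ˣ ≤ Nat.card (𝓞 K ⧸ 𝔮) :=
    Nat.card_le_card_of_injective (fun u : (𝓞 K ⧸ 𝔮)ˣ => (u : 𝓞 K ⧸ 𝔮)) Units.val_injective
  exact h1

/-- the number of the primitive characters of conductor `𝔣` -/
lemma prim_card {𝔣 : Ideal (𝓞 K)} (hbot : 𝔣 ≠ ⊥) (htop : 𝔣 ≠ ⊤) (hT : ∀ x : 𝓞 K, TPos K x) :
    {ψ : Ideal (𝓞 K) →*₀ ℂ | G.IsPrimChar K 𝔣 ψ}.Finite ∧
    {ψ : Ideal (𝓞 K) →*₀ ℂ | G.IsPrimChar K 𝔣 ψ}.ncard ≤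
      Ideal.absNorm 𝔣 * Nat.card (ClassGroup (𝓞 K)) := by
  obtain ⟨h1, h2⟩ := Fam_finite hbot htop hT
  have hsub : {ψ : Ideal (𝓞 K) →*₀ ℂ | G.IsPrimChar K 𝔣 ψ} ⊆ Fam 𝔣 := fun ψ h =>
    ⟨𝔣, dvd_refl _, htop, h⟩
  refine ⟨h1.subset hsub, (Set.ncard_le_ncard hsub h1).trans (h2.trans
    ((cls_card_le hbot htop).2.trans (Nat.mul_le_mul_right _ (card_units_le_norm hbot))))⟩

open Classical in
/-- the conductor of a member of the family -/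
noncomputable def cd (𝔮 : Ideal (𝓞 K)) (ψ : Ideal (𝓞 K) →*₀ ℂ) : Ideal (𝓞 K) :=
  if h : ψ ∈ Fam 𝔮 then h.choose else ⊤

lemma cd_spec {𝔮 : Ideal (𝓞 K)} {ψ : Ideal (𝓞 K) →*₀ ℂ} (h : ψ ∈ Fam 𝔮) :
    cd 𝔮 ψ ∣ 𝔮 ∧ cd 𝔮 ψ ≠ ⊤ ∧ G.IsPrimChar K (cd 𝔮 ψ) ψ := by
  unfold cd
  rw [dif_pos h]
  exact h.choose_spec

/-- few characters have a small conductor -/
lemma small_cond {𝔮 : Ideal (𝓞 K)} (hbot : 𝔮 ≠ ⊥) (hT : ∀ x : 𝓞 K, TPos K x)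
    (Z : ℝ) (hZ : 0 ≤ Z) (S : Finset (Ideal (𝓞 K) →*₀ ℂ))
    (hS : ∀ ψ ∈ S, ψ ∈ Fam 𝔮 ∧ (Ideal.absNorm (cd 𝔮 ψ) : ℝ) ≤ Z) :
    (S.card : ℝ) ≤ (dv 𝔮).ncard * (Z * Nat.card (ClassGroup (𝓞 K))) := by
  classical
  have h1 := Finset.card_eq_sum_card_image (cd 𝔮) S
  rw [h1]
  push_cast
  have h2 : ∀ 𝔡 ∈ S.image (cd 𝔮), ((S.filter (fun ψ => cd 𝔮 ψ = 𝔡)).card : ℝ) ≤
      Z * Nat.card (ClassGroup (𝓞 K)) := by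
    intro 𝔡 h𝔡
    obtain ⟨ψ, hψ, rfl⟩ := Finset.mem_image.mp h𝔡
    obtain ⟨h3, h4⟩ := hS ψ hψ
    obtain ⟨h5, h6, h7⟩ := cd_spec h3
    obtain ⟨h8, h9⟩ := prim_card h7.ne_bot h6 hT
    have h10 : (S.filter (fun ψ' => cd 𝔮 ψ' = cd 𝔮 ψ)).card ≤
        Ideal.absNorm (cd 𝔮 ψ) * Nat.card (ClassGroup (𝓞 K)) := by
      refine le_trans ?_ h9
      rw [Set.ncard_eq_toFinset_card _ h8]
      refine Finset.card_le_card fun ψ' hψ' => ?_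
      obtain ⟨h11, h12⟩ := Finset.mem_filter.mp hψ'
      rw [Set.Finite.mem_toFinset]
      have := (cd_spec (hS ψ' h11).1).2.2
      rw [h12] at this
      exact this
    have h13 : ((S.filter (fun ψ' => cd 𝔮 ψ' = cd 𝔮 ψ)).card : ℝ) ≤
        (Ideal.absNorm (cd 𝔮 ψ) : ℝ) * Nat.card (ClassGroup (𝓞 K)) := by exact_mod_cast h10
    exact h13.trans (mul_le_mul_of_nonneg_right h4 (Nat.cast_nonneg _))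
  refine (Finset.sum_le_sum h2).trans ?_
  rw [Finset.sum_const, nsmul_eq_mul]
  refine mul_le_mul_of_nonneg_right ?_ (by positivity)
  have h3 : (S.image (cd 𝔮)).card ≤ (dv 𝔮).ncard := by
    rw [Set.ncard_eq_toFinset_card _ (dv_finite hbot)]
    refine Finset.card_le_card fun 𝔡 h𝔡 => ?_
    obtain ⟨ψ, hψ, rfl⟩ := Finset.mem_image.mp h𝔡
    rw [Set.Finite.mem_toFinset]
    exact (cd_spec (hS ψ hψ).1).1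
  exact_mod_cast h3

/-! ## the sums over ideals -/

lemma mem_NN {m : ℕ} {𝔞 : Ideal (𝓞 K)} (h : 𝔞 ∈ (NN_finite (K := K) m).toFinset) :
    Ideal.absNorm 𝔞 = m := (NN_finite (K := K) m).mem_toFinset.mp h

open Classical in
/-- the nonzero ideals of norm at most `M` -/
noncomputable def IM (K : Type) [Field K] [NumberField K] (M : ℕ) : Finset (Ideal (𝓞 K)) :=
  (Finset.Icc 1 M).biUnion (fun m => (NN_finite (K := K) m).toFinset)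

lemma mem_IM {M : ℕ} {𝔞 : Ideal (𝓞 K)} (h : 𝔞 ∈ IM K M) : 𝔞 ≠ ⊥ ∧ Ideal.absNorm 𝔞 ≤ M := by
  classical
  unfold IM at h
  obtain ⟨m, hm, h1⟩ := Finset.mem_biUnion.mp h
  have h2 : Ideal.absNorm 𝔞 = m := mem_NN h1
  obtain ⟨h3, h4⟩ := Finset.mem_Icc.mp hm
  refine ⟨?_, by omega⟩
  rintro rfl
  rw [Ideal.absNorm_bot] at h2
  omega

lemma sum_IM {R : Type} [AddCommMonoid R] (M : ℕ) (f : Ideal (𝓞 K) → R) :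
    ∑ 𝔞 ∈ IM K M, f 𝔞 = ∑ m ∈ Finset.Icc 1 M, ∑ 𝔞 ∈ (NN_finite (K := K) m).toFinset, f 𝔞 := by
  classical
  unfold IM
  rw [Finset.sum_biUnion]
  intro m _ m' _ h
  rw [Function.onFun, Finset.disjoint_left]
  intro 𝔞 h1 h2
  have h3 : Ideal.absNorm 𝔞 = m := mem_NN h1
  have h4 : Ideal.absNorm 𝔞 = m' := mem_NN h2
  exact h (h3.symm.trans h4)

lemma sum_cc (ψ : Ideal (𝓞 K) →*₀ ℂ) (M : ℕ) (b : ℕ → ℂ) :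
    ∑ m ∈ Finset.Icc 1 M, b m * (cc ψ m * (ArithmeticFunction.vonMangoldt m : ℂ)) =
      ∑ 𝔞 ∈ IM K M, (b (Ideal.absNorm 𝔞) * (VM 𝔞 : ℂ)) * ψ 𝔞 := by
  rw [sum_IM]
  refine Finset.sum_congr rfl fun m _ => ?_
  rw [cc_mul, finsum_mem_eq_finite_toFinset_sum _ (NN_finite m), Finset.mul_sum]
  refine Finset.sum_congr rfl fun 𝔞 h𝔞 => ?_
  have h3 : Ideal.absNorm 𝔞 = m := mem_NN h𝔞
  rw [h3, mul_assoc]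

lemma sq_cK (n : ℕ) : ‖cK K n‖ ^ 2 =
    (∑ᶠ 𝔞 ∈ {𝔞 : Ideal (𝓞 K) | Ideal.absNorm 𝔞 = n}, VM 𝔞 ^ 2) /
      ArithmeticFunction.vonMangoldt n ^ 2 := by
  unfold cK
  rw [Complex.norm_real, Real.norm_eq_abs, sq_abs, div_pow, Real.sq_sqrt]
  exact finsum_mem_induction (fun z : ℝ => 0 ≤ z) le_rfl (fun _ _ h1 h2 => add_nonneg h1 h2)
    fun 𝔞 _ => sq_nonneg _

lemma sum_sq (M : ℕ) (b : ℕ → ℂ) :
    ∑ 𝔞 ∈ IM K M, ‖b (Ideal.absNorm 𝔞) * (VM 𝔞 : ℂ)‖ ^ 2 ≤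
      ∑ m ∈ Finset.Icc 1 M, ‖b m‖ ^ 2 * (ArithmeticFunction.vonMangoldt m * ‖cK K m‖) ^ 2 := by
  rw [sum_IM]
  refine Finset.sum_le_sum fun m _ => ?_
  have h1 : ∀ 𝔞 ∈ (NN_finite (K := K) m).toFinset, ‖b (Ideal.absNorm 𝔞) * (VM 𝔞 : ℂ)‖ ^ 2 =
      ‖b m‖ ^ 2 * VM 𝔞 ^ 2 := by
    intro 𝔞 h𝔞
    have h3 : Ideal.absNorm 𝔞 = m := mem_NN h𝔞
    rw [h3, norm_mul, mul_pow, Complex.norm_real, Real.norm_eq_abs, sq_abs]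
  rw [Finset.sum_congr rfl h1, ← Finset.mul_sum]
  refine mul_le_mul_of_nonneg_left ?_ (sq_nonneg _)
  by_cases hΛ : ArithmeticFunction.vonMangoldt m = 0
  · have h2 : ∑ 𝔞 ∈ (NN_finite (K := K) m).toFinset, VM 𝔞 ^ 2 = 0 := by
      refine Finset.sum_eq_zero fun 𝔞 h𝔞 => ?_
      have h3 : Ideal.absNorm 𝔞 = m := mem_NN h𝔞
      have h4 : VM 𝔞 = 0 := by
        refine Pool.Agent.Y772.DK.VM_of_not fun h5 => ?_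
        have h6 := Pool.Agent.Y772.DK.pp_of h5
        rw [h3] at h6
        exact ArithmeticFunction.vonMangoldt_ne_zero_iff.2 h6 hΛ
      rw [h4]; ring
    rw [h2, hΛ, zero_mul]; norm_num
  · rw [mul_pow, sq_cK, mul_div_cancel₀ _ (pow_ne_zero 2 hΛ)]
    change _ ≤ ∑ᶠ 𝔞 ∈ NN K m, VM 𝔞 ^ 2
    rw [finsum_mem_eq_finite_toFinset_sum _ (NN_finite m)]

lemma cop_of_norm {𝔞 𝔮 : Ideal (𝓞 K)} (h : Nat.Coprime (Ideal.absNorm 𝔞) (Ideal.absNorm 𝔮)) :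
    IsCoprime 𝔞 𝔮 := by
  have h1 : IsCoprime ((Ideal.absNorm 𝔞 : ℕ) : ℤ) ((Ideal.absNorm 𝔮 : ℕ) : ℤ) :=
    Nat.isCoprime_iff_coprime.mpr h
  obtain ⟨u, v, huv⟩ := h1
  rw [Ideal.isCoprime_iff_exists]
  refine ⟨(u : 𝓞 K) * (Ideal.absNorm 𝔞 : 𝓞 K), Ideal.mul_mem_left _ _ (Ideal.absNorm_mem 𝔞),
    (v : 𝓞 K) * (Ideal.absNorm 𝔮 : 𝓞 K), Ideal.mul_mem_left _ _ (Ideal.absNorm_mem 𝔮), ?_⟩
  have := congrArg (fun z : ℤ => (z : 𝓞 K)) huv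
  simpa using this

theorem ls_cc (hT : ∀ x : 𝓞 K, TPos K x) (hN : ∀ x y : 𝓞 K, Ideal.absNorm (Ideal.span {x - y}) ≤
      2 * (Ideal.absNorm (Ideal.span {x}) + Ideal.absNorm (Ideal.span {y})))
    {𝔮 : Ideal (𝓞 K)} (hbot : 𝔮 ≠ ⊥) (htop : 𝔮 ≠ ⊤) (Y : Finset (Ideal (𝓞 K) →*₀ ℂ))
    (hY : ∀ ψ ∈ Y, ψ ∈ Fam 𝔮) {M : ℕ} (hM : 4 * M < Ideal.absNorm 𝔮) (b : ℕ → ℂ) :
    ∑ ψ ∈ Y, ‖∑ m ∈ Finset.Icc 1 M, b m * (if Nat.Coprime m (Ideal.absNorm 𝔮) then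
      cc ψ m * (ArithmeticFunction.vonMangoldt m : ℂ) else 0)‖ ^ 2 ≤
      Nat.card (Cls (pi1 htop)) * ∑ m ∈ Finset.Icc 1 M,
          ‖b m‖ ^ 2 * (ArithmeticFunction.vonMangoldt m * ‖cK K m‖) ^ 2 := by
  classical
  obtain ⟨b', hb'⟩ : ∃ b' : ℕ → ℂ, ∀ m, b' m = if Nat.Coprime m (Ideal.absNorm 𝔮) then b m else 0 :=
    ⟨_, fun _ => rfl⟩
  set S : Finset (Mq 𝔮) := (IM K M).subtype (fun 𝔞 => 𝔞 ∈ Mq 𝔮) with hS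
  set a : Mq 𝔮 → ℂ := fun x => b' (Ideal.absNorm (x : Ideal (𝓞 K))) * (VM (x : Ideal (𝓞 K)) : ℂ)
    with ha
  have h1 : ∀ ψ ∈ Y, ∑ m ∈ Finset.Icc 1 M, b m * (if Nat.Coprime m (Ideal.absNorm 𝔮) then
      cc ψ m * (ArithmeticFunction.vonMangoldt m : ℂ) else 0) =
      ∑ x ∈ S, a x * ((tM 𝔮 ψ x : ℂˣ) : ℂ) := by
    intro ψ hψ
    have h2 : ∑ x ∈ S, a x * ((tM 𝔮 ψ x : ℂˣ) : ℂ) = ∑ x ∈ S,
        (fun 𝔞 : Ideal (𝓞 K) => (b' (Ideal.absNorm 𝔞) * (VM 𝔞 : ℂ)) * ψ 𝔞) (x : Ideal (𝓞 K)) := by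
      refine Finset.sum_congr rfl fun x _ => ?_
      rw [tM_coe htop (hY ψ hψ)]
    rw [h2]
    refine Eq.trans ?_ (Finset.sum_subtype_eq_sum_filter
      (fun 𝔞 : Ideal (𝓞 K) => (b' (Ideal.absNorm 𝔞) * (VM 𝔞 : ℂ)) * ψ 𝔞)).symm
    rw [Finset.sum_filter_of_ne, ← sum_cc]
    · refine Finset.sum_congr rfl fun m _ => ?_
      rw [hb']
      split_ifs <;> simp
    · intro 𝔞 _ hne
      apply cop_of_norm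
      by_contra hcon
      apply hne
      rw [hb', if_neg hcon]
      ring
  rw [Finset.sum_congr rfl fun ψ hψ => by rw [h1 ψ hψ]]
  have hinj : Set.InjOn (tM 𝔮) Y := fun ψ hψ ψ' hψ' h =>
    tM_inj hbot htop hT (hY ψ hψ) (hY ψ' hψ') h
  have h3 := ls hbot htop (Y.image (tM 𝔮)) (by
    intro F hF
    obtain ⟨ψ, hψ, rfl⟩ := Finset.mem_image.mp hF
    exact tM_mem htop hT (hY ψ hψ)) S (by
    intro x hx y hy hxy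
    have hx' := mem_IM (Finset.mem_subtype.mp hx)
    have hy' := mem_IM (Finset.mem_subtype.mp hy)
    exact sep hN htop hx'.2 hy'.2 hM hxy) a
  rw [Finset.sum_image hinj] at h3
  refine h3.trans (mul_le_mul_of_nonneg_left ?_ (Nat.cast_nonneg _))
  calc ∑ x ∈ S, ‖a x‖ ^ 2
      = ∑ 𝔞 ∈ (IM K M).filter (fun 𝔞 => 𝔞 ∈ Mq 𝔮),
          ‖b' (Ideal.absNorm 𝔞) * (VM 𝔞 : ℂ)‖ ^ 2 := by
        rw [hS]
        exact Finset.sum_subtype_eq_sum_filter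
          (fun 𝔞 : Ideal (𝓞 K) => ‖b' (Ideal.absNorm 𝔞) * (VM 𝔞 : ℂ)‖ ^ 2)
    _ ≤ ∑ 𝔞 ∈ IM K M, ‖b' (Ideal.absNorm 𝔞) * (VM 𝔞 : ℂ)‖ ^ 2 :=
        Finset.sum_le_sum_of_subset_of_nonneg (Finset.filter_subset _ _)
          (fun _ _ _ => sq_nonneg _)
    _ ≤ ∑ m ∈ Finset.Icc 1 M, ‖b' m‖ ^ 2 * (ArithmeticFunction.vonMangoldt m * ‖cK K m‖) ^ 2 :=
        sum_sq M b'
    _ ≤ _ := by
        refine Finset.sum_le_sum fun m _ => mul_le_mul_of_nonneg_right ?_ (sq_nonneg _)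
        rw [hb']
        split_ifs
        · exact le_rfl
        · rw [norm_zero]
          exact (by norm_num : (0 : ℝ) ^ 2 ≤ 0).trans (sq_nonneg _)

end

end Pool.Agent.Y773.IQ
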