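import Pool.Agent.Y767.HC.Good
import Pool.Agent.Y773.HG.Top
import Pool.Agent.Y773.HG.Asm
import Pool.Agent.Y772.HG.Tot

/-! # The L-functions of all primitive ray class characters satisfy `GoodG`, uniformly -/

set_option autoImplicit false
set_option linter.unusedSectionVars false

open NumberField Complex Filter Topology MeasureTheory

namespace Pool.Agent.Y773.IQ

open Pool.Agent.Y773 (TPos LI VM cc FEd)
open Pool.Agent.Y767 (FEn GGn eq_of_LI)

lemma FEd.toFEn {ι : Type} [Fintype ι] [Nonempty ι] {R : ℝ} {e : ι → ℕ} {F : ℂ → ℂ}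
    (h : FEd R e F) : FEn R e (fun _ => 0) F := by
  have hG : ∀ s : ℂ, GGn R e (fun _ : ι => (0 : ℝ)) s = GG R e s := by
    intro s
    unfold GGn GG
    simp
  obtain ⟨i0⟩ := ‹Nonempty ι›
  refine ⟨h.he, h.diff, ?_, ?_⟩
  · obtain ⟨w, hw, hfe⟩ := h.fe
    refine ⟨w, hw, fun s hs => ?_⟩
    rw [hG, hG]
    exact hfe s (by simpa using hs i0)
  · intro a b
    obtain ⟨C, hC⟩ := h.vert a b
    refine ⟨C, fun s h1 h2 h3 => ?_⟩
    rw [hG]
    exact hC s h1 h2 (by simpa using h3 i0)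

section

variable (K : Type) [Field K] [NumberField K]

theorem good : ∃ A : ℝ, 1 ≤ A ∧ ∀ (𝔣 : Ideal (𝓞 K)) (ψ : Ideal (𝓞 K) →*₀ ℂ), 𝔣 ≠ ⊤ →
    G.IsPrimChar K 𝔣 ψ → ∃ F : ℂ → ℂ, Differentiable ℂ F ∧ (∀ s : ℂ, 1 < s.re → F s = LI ψ s) ∧
    W388.LV.GoodG (Module.finrank ℚ K) A ((Ideal.absNorm 𝔣 : ℝ) ^ (1 / (Module.finrank ℚ K : ℝ)))
      F (fun m => cc ψ m * (ArithmeticFunction.vonMangoldt m : ℂ)) := by
  have hSig := Pool.Agent.Y772.G.t_sig
  have hE := Pool.Agent.Y773.G.t_ent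
  obtain ⟨A₀, hA₀, hD⟩ := Pool.Agent.Y772.DK.t_dirK K
  have hdN : (1 : ℝ) ≤ (Ideal.absNorm (differentIdeal ℤ (𝓞 K)) : ℝ) := by
    have : Ideal.absNorm (differentIdeal ℤ (𝓞 K)) ≠ 0 := by
      rw [Ne, Ideal.absNorm_eq_zero_iff]
      exact differentIdeal_ne_bot
    exact_mod_cast Nat.one_le_iff_ne_zero.mpr this
  obtain ⟨A₁, hA₁, hfe⟩ := Pool.Agent.Y772.HC.t_fen (K →+* ℂ)
    (Ideal.absNorm (differentIdeal ℤ (𝓞 K)) : ℝ) hdN A₀ hA₀ 0 le_rfl
  refine ⟨max A₀ A₁, le_max_of_le_left hA₀, fun 𝔣 ψ htop h => ?_⟩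
  set n : ℝ := (Module.finrank ℚ K : ℝ) with hn
  have hn0 : 0 < n := by
    have := Module.finrank_pos (R := ℚ) (M := K)
    rw [hn]; exact_mod_cast this
  have hq1 : (1 : ℝ) ≤ (Ideal.absNorm 𝔣 : ℝ) := by
    have : Ideal.absNorm 𝔣 ≠ 0 := by
      rw [Ne, Ideal.absNorm_eq_zero_iff]; exact h.ne_bot
    exact_mod_cast Nat.one_le_iff_ne_zero.mpr this
  set Q : ℝ := (Ideal.absNorm 𝔣 : ℝ) ^ (1 / n) with hQ
  have hQ1 : 1 ≤ Q := Real.one_le_rpow hq1 (by positivity)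
  have hcard : (Fintype.card (K →+* ℂ) : ℝ) = n := by rw [Pool.Agent.Y773.G.card_emb]
  have hQn : Q ^ Fintype.card (K →+* ℂ) = (Ideal.absNorm 𝔣 : ℝ) := by
    rw [← Real.rpow_natCast, hcard, hQ, ← Real.rpow_mul (by linarith),
      one_div_mul_cancel hn0.ne', Real.rpow_one]
  have hψ1 : ∀ 𝔞, ‖ψ 𝔞‖ ≤ 1 := h.norm_le_one hSig
  obtain ⟨d1, d2, d3, d4, d5, d6, d7, -, d8, d9, -⟩ := hD ψ hψ1
  obtain ⟨e, he⟩ := h.isModChar hSig htop
  obtain ⟨F, hFE, hFL⟩ := Pool.Agent.Y773.G.fe_prim h he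
  have hF := hFE.diff
  have hFn := FEd.toFEn hFE
  have hRe : ((Ideal.absNorm 𝔣 * Ideal.absNorm (differentIdeal ℤ (𝓞 K)) : ℕ) : ℝ) =
      (Ideal.absNorm (differentIdeal ℤ (𝓞 K)) : ℝ) * Q ^ Fintype.card (K →+* ℂ) := by
    rw [hQn]; push_cast; ring
  rw [hRe] at hFn
  have hnz : ∀ s : ℂ, 1 ≤ s.re → F s ≠ 0 := by
    intro s h1
    rcases lt_or_eq_of_le h1 with h3 | h3
    · rw [hFL _ h3]
      exact d3 _ h3
    · exact Pool.Agent.Y772.G.nv_prim hE h htop h3.symm (hF.analyticAt s) hFL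
  obtain ⟨f1, f2, f3, f4⟩ := hfe Q hQ1 (Pool.Agent.Y773.G.ex e) (fun _ => 0) F
    (fun w => ⟨le_rfl, le_rfl⟩) hFn
    (fun s h1 => by
      rw [hFL _ (by linarith)]
      exact d5 _ h1) (fun s h1 _ => hnz s h1)
  rw [hcard] at f4
  have hA0 : (0 : ℝ) < A₁ := by linarith
  have hAm : 0 < max A₀ A₁ := lt_max_of_lt_left (by linarith)
  have hle : ∀ m : ℕ, ‖(cc ψ m * (ArithmeticFunction.vonMangoldt m : ℂ))‖ *
      (m : ℝ) ^ (-(7 / 4) : ℝ) ≤
      ArithmeticFunction.vonMangoldt m * ‖cc ψ m‖ * (m : ℝ) ^ (-(3 / 2) : ℝ) := by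
    intro m
    rcases Nat.eq_zero_or_pos m with rfl | hm
    · simp
    rw [norm_mul, Complex.norm_real,
      Real.norm_of_nonneg ArithmeticFunction.vonMangoldt_nonneg, mul_comm ‖cc ψ m‖]
    refine mul_le_mul_of_nonneg_left ?_
      (mul_nonneg ArithmeticFunction.vonMangoldt_nonneg (norm_nonneg _))
    exact Real.rpow_le_rpow_of_exponent_le (by exact_mod_cast hm) (by norm_num)
  refine ⟨F, hF, hFL, ?_, ?_, ?_, ?_, ?_, ?_, ?_, ?_, ?_, ?_, ?_⟩
  · intro s _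
    exact hF.analyticAt s
  · intro s h1 h2 h3
    refine (f1 s h1 h2 h3).trans ?_
    have h4 : 1 ≤ Q * s.im := by nlinarith
    exact mul_le_mul (le_max_right _ _) (Real.rpow_le_rpow_of_exponent_le h4 (le_max_right _ _))
      (by positivity) hAm.le
  · intro t _
    have h1 : (1 : ℝ) < ((⟨2, t⟩ : ℂ)).re := by norm_num
    rw [hFL _ h1]
    refine le_trans ?_ (d6 _ (by norm_num))
    exact inv_anti₀ (by linarith) (le_max_left _ _)
  · exact fun s h1 _ => hnz s h1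
  · exact f2
  · exact f3
  · intro m hm
    have : ArithmeticFunction.vonMangoldt m = 0 := by
      interval_cases m <;> simp
    rw [this]; simp
  · refine Summable.of_nonneg_of_le (fun m => by positivity) hle d8
  · refine (Summable.tsum_le_tsum hle (Summable.of_nonneg_of_le (fun m => by positivity) hle d8)
      d8).trans (d9.trans (le_max_left _ _))
  · intro s h1 h2
    have h5 : deriv F s = deriv (LI ψ) s := by
      refine Filter.EventuallyEq.deriv_eq ?_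
      have h6 : {z : ℂ | 1 < z.re} ∈ 𝓝 s :=
        (isOpen_lt continuous_const Complex.continuous_re).mem_nhds h1
      filter_upwards [h6] with z hz
      exact hFL z hz
    rw [h5, hFL _ h1, d4 _ h1]
  · intro s h1 h2 h3 h4
    exact (f4 s h1 h2 h3 h4).trans (le_max_right _ _)

end

end Pool.Agent.Y773.IQ
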