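import Pool.Agent.Y773.IQ.Fam

/-! # The size of the family and the average of the conductors -/

set_option autoImplicit false
set_option linter.unusedSectionVars false

open NumberField Filter Topology

namespace Pool.Agent.Y773.IQ

open Pool.Agent.Y767 (Cls)

section

variable (K : Type) [Field K] [NumberField K] [IsTotallyComplex K]

lemma exists_ge (e B : ℝ) (he : 0 < e) : ∃ N0 : ℝ, 1 ≤ N0 ∧ ∀ N : ℝ, N0 ≤ N → B ≤ N ^ e := by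
  obtain ⟨N0, h⟩ := (tendsto_atTop.mp (tendsto_rpow_atTop he) B).exists_forall_of_atTop
  exact ⟨max N0 1, le_max_right _ _, fun N hN => h N ((le_max_left _ _).trans hN)⟩

lemma one_le_norm {𝔮 : Ideal (𝓞 K)} (h : 𝔮 ≠ ⊥) : (1 : ℝ) ≤ (Ideal.absNorm 𝔮 : ℝ) := by
  exact_mod_cast absNorm_pos' h

theorem fam_big (h2 : Module.finrank ℚ K = 2) {ε : ℝ} (hε : 0 < ε) : ∃ c : ℝ, 0 < c ∧
    ∀ 𝔮 : Ideal (𝓞 K), 𝔮 ≠ ⊥ → 𝔮 ≠ ⊤ → c * (Ideal.absNorm 𝔮 : ℝ) ^ (1 - ε) ≤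
      ((Fam 𝔮).ncard : ℝ) + Nat.card (ClassGroup (𝓞 K)) := by
  have := finite_units (K := K) h2
  obtain ⟨C, hC, hdiv⟩ := divisor_bound K hε
  have hU : 0 < Nat.card (𝓞 K)ˣ := Nat.card_pos
  have hU' : (0 : ℝ) < Nat.card (𝓞 K)ˣ := by exact_mod_cast hU
  refine ⟨1 / (C * Nat.card (𝓞 K)ˣ), by positivity, fun 𝔮 hbot htop => ?_⟩
  have hN1 := one_le_norm K hbot
  have a1 := norm_le_tau_phi hbot
  have a2 := card_units_le hbot htop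
  have a3 := Fam_lower hbot htop (fun x => tpos_all x)
  have a4 := hdiv 𝔮 hbot
  have b1 : (Ideal.absNorm 𝔮 : ℝ) ≤ (dv 𝔮).ncard * Nat.card (𝓞 K ⧸ 𝔮)ˣ := by exact_mod_cast a1
  have b2 : (Nat.card (𝓞 K ⧸ 𝔮)ˣ : ℝ) ≤ Nat.card (𝓞 K)ˣ * Nat.card (Cls (pi1 htop)) := by
    exact_mod_cast a2
  have b3 : (Nat.card (Cls (pi1 htop)) : ℝ) ≤ (Fam 𝔮).ncard + Nat.card (ClassGroup (𝓞 K)) := by
    exact_mod_cast a3
  have hN0 : (0 : ℝ) < Ideal.absNorm 𝔮 := by linarith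
  have e1 : (Ideal.absNorm 𝔮 : ℝ) ^ (1 - ε) * (Ideal.absNorm 𝔮 : ℝ) ^ ε = Ideal.absNorm 𝔮 := by
    rw [← Real.rpow_add hN0, sub_add_cancel, Real.rpow_one]
  have hp : 0 < (Ideal.absNorm 𝔮 : ℝ) ^ ε := Real.rpow_pos_of_pos hN0 _
  rw [one_div, inv_mul_le_iff₀ (by positivity)]
  refine le_of_mul_le_mul_right ?_ hp
  rw [e1]
  calc (Ideal.absNorm 𝔮 : ℝ) ≤ (dv 𝔮).ncard * Nat.card (𝓞 K ⧸ 𝔮)ˣ := b1
    _ ≤ (C * (Ideal.absNorm 𝔮 : ℝ) ^ ε) * (Nat.card (𝓞 K)ˣ *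
        ((Fam 𝔮).ncard + Nat.card (ClassGroup (𝓞 K)))) := by
        refine mul_le_mul a4 (b2.trans (mul_le_mul_of_nonneg_left b3 hU'.le)) (Nat.cast_nonneg _)
          (by positivity)
    _ = _ := by ring

/-- the family is large -/
theorem fam_big' (h2 : Module.finrank ℚ K = 2) {ε : ℝ} (hε : 0 < ε) (hε1 : ε < 1) :
    ∃ c N0 : ℝ, 0 < c ∧ 1 ≤ N0 ∧
    ∀ 𝔮 : Ideal (𝓞 K), 𝔮 ≠ ⊥ → 𝔮 ≠ ⊤ → N0 ≤ (Ideal.absNorm 𝔮 : ℝ) →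
      c * (Ideal.absNorm 𝔮 : ℝ) ^ (1 - ε) ≤ ((Fam 𝔮).ncard : ℝ) := by
  obtain ⟨c, hc, h⟩ := fam_big K h2 hε
  obtain ⟨N0, hN0, h0⟩ := exists_ge (1 - ε) (2 * Nat.card (ClassGroup (𝓞 K)) / c) (by linarith)
  refine ⟨c / 2, N0, by positivity, hN0, fun 𝔮 hbot htop hN => ?_⟩
  have h1 := h 𝔮 hbot htop
  have h3 := h0 _ hN
  rw [div_le_iff₀ hc] at h3
  linarith

theorem fam_ratio (h2 : Module.finrank ℚ K = 2) {D : ℝ} (hD : 1 < D) : ∃ N0 : ℝ, 1 ≤ N0 ∧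
    ∀ (𝔮 : Ideal (𝓞 K)) (_ : 𝔮 ≠ ⊥) (htop : 𝔮 ≠ ⊤), N0 ≤ (Ideal.absNorm 𝔮 : ℝ) →
      (Nat.card (Cls (pi1 htop)) : ℝ) ≤ D * (Fam 𝔮).ncard := by
  obtain ⟨c, N0, hc, hN0, h⟩ := fam_big' K h2 (ε := 1 / 2) (by norm_num) (by norm_num)
  obtain ⟨N1, hN1, h1⟩ := exists_ge (1 - 1 / 2)
    (Nat.card (ClassGroup (𝓞 K)) / ((D - 1) * c)) (by norm_num)
  refine ⟨max N0 N1, le_max_of_le_left hN0, fun 𝔮 hbot htop hN => ?_⟩
  have h3 := h 𝔮 hbot htop ((le_max_left _ _).trans hN)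
  have h4 := h1 _ ((le_max_right _ _).trans hN)
  have hD0 : 0 < D - 1 := by linarith
  rw [div_le_iff₀ (by positivity)] at h4
  have a3 := Fam_lower hbot htop (fun x => tpos_all x)
  have b3 : (Nat.card (Cls (pi1 htop)) : ℝ) ≤ (Fam 𝔮).ncard + Nat.card (ClassGroup (𝓞 K)) := by
    exact_mod_cast a3
  have h5 : (Nat.card (ClassGroup (𝓞 K)) : ℝ) ≤ (D - 1) * (Fam 𝔮).ncard := by
    calc (Nat.card (ClassGroup (𝓞 K)) : ℝ)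
        ≤ (Ideal.absNorm 𝔮 : ℝ) ^ (1 - 1 / 2 : ℝ) * ((D - 1) * c) := h4
      _ = (D - 1) * (c * (Ideal.absNorm 𝔮 : ℝ) ^ (1 - 1 / 2 : ℝ)) := by ring
      _ ≤ _ := mul_le_mul_of_nonneg_left h3 hD0.le
  linarith

/-- the average of the logarithms of the conductors -/
theorem fam_cond (h2 : Module.finrank ℚ K = 2) {δ : ℝ} (hδ : 0 < δ) : ∃ N0 : ℝ, 1 ≤ N0 ∧
    ∀ (𝔮 : Ideal (𝓞 K)) (_ : 𝔮 ≠ ⊥) (_ : 𝔮 ≠ ⊤) (S : Finset (Ideal (𝓞 K) →*₀ ℂ)),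
      (∀ ψ, ψ ∈ S ↔ ψ ∈ Fam 𝔮) → N0 ≤ (Ideal.absNorm 𝔮 : ℝ) →
      ∑ ψ ∈ S, (Real.log (Ideal.absNorm 𝔮) - Real.log (Ideal.absNorm (cd 𝔮 ψ))) ≤
        δ * Real.log (Ideal.absNorm 𝔮) * S.card := by
  classical
  obtain ⟨δ', hδ'⟩ : ∃ δ' : ℝ, δ' = min δ 1 := ⟨_, rfl⟩
  have hd0 : 0 < δ' := by rw [hδ']; exact lt_min hδ one_pos
  have hd1 : δ' ≤ 1 := by rw [hδ']; exact min_le_right _ _
  have hdd : δ' ≤ δ := by rw [hδ']; exact min_le_left _ _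
  obtain ⟨C, hC, hdiv⟩ := divisor_bound K (ε := δ' / 8) (by positivity)
  obtain ⟨c, N0, hc, hN0, hbig⟩ := fam_big' K h2 (ε := δ' / 8) (by positivity) (by linarith)
  obtain ⟨h, hh⟩ : ∃ h : ℝ, h = Nat.card (ClassGroup (𝓞 K)) := ⟨_, rfl⟩
  have hh0 : 0 ≤ h := by rw [hh]; exact Nat.cast_nonneg _
  obtain ⟨N1, hN1, h1⟩ := exists_ge (δ' / 4) (2 * C * h / (c * δ')) (by positivity)
  refine ⟨max N0 N1, le_max_of_le_left hN0, fun 𝔮 hbot htop S hS hN => ?_⟩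
  have k1 := hbig 𝔮 hbot htop ((le_max_left _ _).trans hN)
  have k2 := h1 _ ((le_max_right _ _).trans hN)
  obtain ⟨N, hNd⟩ : ∃ N : ℝ, N = (Ideal.absNorm 𝔮 : ℝ) := ⟨_, rfl⟩
  have hNge : 1 ≤ N := by rw [hNd]; exact one_le_norm K hbot
  have hNp : 0 < N := by linarith
  have hL : 0 ≤ Real.log N := Real.log_nonneg hNge
  have hSc : (S.card : ℝ) = ((Fam 𝔮).ncard : ℝ) := by
    have : (Fam 𝔮) = (S : Set _) := by
      ext ψ; rw [Finset.mem_coe, hS]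
    rw [this, Set.ncard_coe_finset]
  rw [← hSc] at k1
  rw [← hNd] at k1 k2 ⊢
  obtain ⟨Z, hZ⟩ : ∃ Z : ℝ, Z = N ^ (1 - δ' / 2) := ⟨_, rfl⟩
  have hZ0 : 0 < Z := by rw [hZ]; exact Real.rpow_pos_of_pos hNp _
  have hlogZ : Real.log Z = (1 - δ' / 2) * Real.log N := by rw [hZ, Real.log_rpow hNp]
  obtain ⟨S1, hS1⟩ : ∃ S1 : Finset (Ideal (𝓞 K) →*₀ ℂ),
      S1 = S.filter (fun ψ => (Ideal.absNorm (cd 𝔮 ψ) : ℝ) ≤ Z) := ⟨_, rfl⟩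
  have m1 := small_cond hbot (fun x => tpos_all x) Z hZ0.le S1 (by
    intro ψ hψ
    rw [hS1] at hψ
    obtain ⟨u1, u2⟩ := Finset.mem_filter.mp hψ
    exact ⟨(hS ψ).mp u1, u2⟩)
  have m2 : (S1.card : ℝ) ≤ δ' / 2 * S.card := by
    have v1 := hdiv 𝔮 hbot
    rw [← hNd] at v1
    rw [← hh] at m1
    have v2 : N ^ (δ' / 8) * Z * N ^ (δ' / 4) = N ^ (1 - δ' / 8) := by
      rw [hZ, ← Real.rpow_add hNp, ← Real.rpow_add hNp]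
      congr 1; ring
    rw [div_le_iff₀ (by positivity)] at k2
    have v3 : 0 < N ^ (δ' / 8) * Z := mul_pos (Real.rpow_pos_of_pos hNp _) hZ0
    calc (S1.card : ℝ) ≤ (dv 𝔮).ncard * (Z * h) := m1
      _ ≤ (C * N ^ (δ' / 8)) * (Z * h) := mul_le_mul_of_nonneg_right v1 (by positivity)
      _ = (N ^ (δ' / 8) * Z) * (C * h) := by ring
      _ ≤ (N ^ (δ' / 8) * Z) * (N ^ (δ' / 4) * (c * δ') / 2) := by
          refine mul_le_mul_of_nonneg_left ?_ v3.le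
          linarith
      _ = δ' / 2 * (c * (N ^ (δ' / 8) * Z * N ^ (δ' / 4))) := by ring
      _ ≤ δ' / 2 * S.card := by
          rw [v2]
          exact mul_le_mul_of_nonneg_left k1 (by positivity)
  have m3 : ∀ ψ ∈ S, Real.log N - Real.log (Ideal.absNorm (cd 𝔮 ψ)) ≤
      δ' / 2 * Real.log N + (if ψ ∈ S1 then Real.log N else 0) := by
    intro ψ hψ
    have w1 := cd_spec ((hS ψ).mp hψ)
    have w2 : (1 : ℝ) ≤ (Ideal.absNorm (cd 𝔮 ψ) : ℝ) := one_le_norm K w1.2.2.ne_bot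
    have w3 : 0 ≤ Real.log (Ideal.absNorm (cd 𝔮 ψ)) := Real.log_nonneg w2
    split_ifs with hmem
    · have : 0 ≤ δ' / 2 * Real.log N := by positivity
      linarith
    · have w4 : Z < (Ideal.absNorm (cd 𝔮 ψ) : ℝ) := by
        by_contra hcon
        apply hmem
        rw [hS1]
        exact Finset.mem_filter.mpr ⟨hψ, not_lt.mp hcon⟩
      have w5 := Real.log_le_log hZ0 w4.le
      rw [hlogZ] at w5
      linarith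
  refine (Finset.sum_le_sum m3).trans ?_
  rw [Finset.sum_add_distrib, Finset.sum_const, nsmul_eq_mul, ← Finset.sum_filter, Finset.sum_const,
    nsmul_eq_mul]
  have m4 : ((S.filter (fun ψ => ψ ∈ S1)).card : ℝ) ≤ S1.card := by
    have : (S.filter (fun ψ => ψ ∈ S1)).card ≤ S1.card :=
      Finset.card_le_card fun ψ h => (Finset.mem_filter.mp h).2
    exact_mod_cast this
  have m5 : ((S.filter (fun ψ => ψ ∈ S1)).card : ℝ) * Real.log N ≤ δ' / 2 * S.card * Real.log N :=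
    mul_le_mul_of_nonneg_right (m4.trans m2) hL
  have m6 : δ' * (Real.log N * S.card) ≤ δ * (Real.log N * S.card) :=
    mul_le_mul_of_nonneg_right hdd (by positivity)
  nlinarith

/-- the large sieve for the family -/
theorem fam_ls (h2 : Module.finrank ℚ K = 2) {D : ℝ} (hD : 1 < D) {ε0 : ℝ} (h0 : 0 < ε0) :
    ∃ N0 : ℝ, 1 ≤ N0 ∧ ∀ (𝔮 : Ideal (𝓞 K)) (_ : 𝔮 ≠ ⊥) (_ : 𝔮 ≠ ⊤)
      (S : Finset (Ideal (𝓞 K) →*₀ ℂ)), (∀ ψ, ψ ∈ S ↔ ψ ∈ Fam 𝔮) → N0 ≤ (Ideal.absNorm 𝔮 : ℝ) →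
      ∀ M : ℕ, (M : ℝ) ≤ (Ideal.absNorm 𝔮 : ℝ) ^ (1 - ε0) → ∀ b : ℕ → ℂ,
      ∑ ψ ∈ S, ‖∑ m ∈ Finset.Icc 1 M, b m * (if Nat.Coprime m (Ideal.absNorm 𝔮) then
        Pool.Agent.Y773.cc ψ m * (ArithmeticFunction.vonMangoldt m : ℂ) else 0)‖ ^ 2 ≤
      D * S.card * ∑ m ∈ Finset.Icc 1 M,
          ‖b m‖ ^ 2 * (ArithmeticFunction.vonMangoldt m * ‖Pool.Agent.Y767.cK K m‖) ^ 2 := by
  obtain ⟨N0, hN0, h⟩ := fam_ratio K h2 hD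
  obtain ⟨N1, hN1, h1⟩ := exists_ge ε0 5 h0
  refine ⟨max N0 N1, le_max_of_le_left hN0, fun 𝔮 hbot htop S hS hN M hM b => ?_⟩
  have k1 := h 𝔮 hbot htop ((le_max_left _ _).trans hN)
  have k2 := h1 _ ((le_max_right _ _).trans hN)
  have hNp : (0 : ℝ) < Ideal.absNorm 𝔮 := by linarith [one_le_norm K hbot]
  have hSc : (S.card : ℝ) = ((Fam 𝔮).ncard : ℝ) := by
    have : (Fam 𝔮) = (S : Set _) := by
      ext ψ; rw [Finset.mem_coe, hS]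
    rw [this, Set.ncard_coe_finset]
  have hM4 : 4 * M < Ideal.absNorm 𝔮 := by
    have e1 : (Ideal.absNorm 𝔮 : ℝ) ^ (1 - ε0) * (Ideal.absNorm 𝔮 : ℝ) ^ ε0 = Ideal.absNorm 𝔮 := by
      rw [← Real.rpow_add hNp, sub_add_cancel, Real.rpow_one]
    have e2 : 0 < (Ideal.absNorm 𝔮 : ℝ) ^ (1 - ε0) := Real.rpow_pos_of_pos hNp _
    have e3 : (4 : ℝ) * M < Ideal.absNorm 𝔮 := by nlinarith
    exact_mod_cast e3
  have k3 := ls_cc (fun x => tpos_all x) (norm_sub_le' h2) hbot htop S (fun ψ hψ => (hS ψ).mp hψ)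
    hM4 b
  refine k3.trans (mul_le_mul_of_nonneg_right ?_ ?_)
  · rw [hSc]; exact k1
  · exact Finset.sum_nonneg fun m _ => by positivity

end

end Pool.Agent.Y773.IQ
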