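import Pool.Agent.Y773.IQ.Core
import Pool.Agent.Y773.IQ.Msq
import Pool.Agent.Y773.IQ.Good
import Pool.Agent.Y773.IQ.Num
import Pool.Agent.H385R2.WinE

/-! # 67.25 per cent of the zeros, every modulus, imaginary quadratic fields -/

set_option autoImplicit false
set_option linter.unusedSectionVars false

open NumberField Filter Topology MeasureTheory

namespace Pool.Agent.Y773.IQ

open Pool.Agent.Y773 (LI cc)
open Pool.Agent.Y767 (cK)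
open H370 (zset NN Ns Nd)
open H385 (Rw)

/-- the constants -/
theorem consts : ∃ γ β D ε : ℝ, 0 < γ ∧ γ < Real.pi ∧ 0 < β ∧ β < 2 ∧ 1 < D ∧ 0 < ε ∧ 0 ≤ Rw γ 0 ∧
    0 ≤ 2 * β * (∫ α in (0 : ℝ)..1, α * Rw γ α) * D ∧
    2 * Rw γ 0 / β + 2 * β * (∫ α in (0 : ℝ)..1, α * Rw γ α) * D / 2 + ε ≤ 1.3275 := by
  obtain ⟨γ, hγ⟩ : ∃ γ : ℝ, γ = 1.414 := ⟨_, rfl⟩
  have h0 : 0 < γ := by rw [hγ]; norm_num
  have hπ : γ < Real.pi := by rw [hγ]; linarith [Real.pi_gt_three]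
  have hconst := H385.Rw_const_d2
  rw [← hγ] at hconst
  obtain ⟨R, hR⟩ : ∃ R : ℝ, R = Rw γ 0 := ⟨_, rfl⟩
  obtain ⟨I1, hI1⟩ : ∃ I1 : ℝ, I1 = ∫ α in (0 : ℝ)..1, α * Rw γ α := ⟨_, rfl⟩
  have hR0 : 0 ≤ R := by rw [hR]; exact H385.Rw_nonneg γ h0 hπ 0
  have hI0 : 0 ≤ I1 := by
    rw [hI1]
    exact intervalIntegral.integral_nonneg zero_le_one
      (fun α hα => mul_nonneg hα.1 (H385.Rw_nonneg γ h0 hπ α))
  rw [← hR, ← hI1] at hconst
  -- as `t → 1`, `R / t + 2 I1 t (2 - t) → R + 2 I1`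
  have hcont : ContinuousAt (fun t : ℝ => R / t + 2 * I1 * t * (2 - t)) 1 := by
    have : (1 : ℝ) ≠ 0 := one_ne_zero
    fun_prop (disch := assumption)
  have hlt : (fun t : ℝ => R / t + 2 * I1 * t * (2 - t)) 1 < 1.3275 := by
    change R / 1 + 2 * I1 * 1 * (2 - 1) < 1.3275
    linarith
  have hev := hcont.eventually_lt_const hlt
  obtain ⟨r, hr, hball⟩ := Metric.eventually_nhds_iff.mp hev
  obtain ⟨t, ht⟩ : ∃ t : ℝ, t = 1 - min (r / 2) (1 / 2) := ⟨_, rfl⟩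
  have hm1 : 0 < min (r / 2) (1 / 2) := lt_min (by positivity) (by norm_num)
  have hm2 : min (r / 2) (1 / 2) ≤ 1 / 2 := min_le_right _ _
  have hm3 : min (r / 2) (1 / 2) ≤ r / 2 := min_le_left _ _
  have ht1 : t < 1 := by linarith
  have ht0 : 1 / 2 ≤ t := by linarith
  have htr := hball (y := t) (by rw [Real.dist_eq, abs_lt]; constructor <;> linarith)
  change R / t + 2 * I1 * t * (2 - t) < 1.3275 at htr
  refine ⟨γ, 2 * t, 2 - t, 1.3275 - (R / t + 2 * I1 * t * (2 - t)), h0, hπ, by linarith,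
    by linarith, by linarith, by linarith, by rw [← hR]; exact hR0, ?_, ?_⟩
  · rw [← hI1]
    have : 0 ≤ 2 - t := by linarith
    positivity
  · rw [← hR, ← hI1]
    have e1 : 2 * R / (2 * t) = R / t := by
      rw [mul_div_mul_left _ _ two_ne_zero]
    rw [e1]
    have e2 : 2 * (2 * t) * I1 * (2 - t) / 2 = 2 * I1 * t * (2 - t) := by ring
    rw [e2]
    linarith

section

variable (K : Type) [Field K] [NumberField K]

open Classical in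
/-- the entire L-function of `ψ` (if there is one) -/
noncomputable def LL (ψ : Ideal (𝓞 K) →*₀ ℂ) : ℂ → ℂ :=
  if h : ∃ F : ℂ → ℂ, Differentiable ℂ F ∧ ∀ s : ℂ, 1 < s.re → F s = LI ψ s then h.choose else 0

lemma LL_eq {ψ : Ideal (𝓞 K) →*₀ ℂ} {F : ℂ → ℂ} (hF : Differentiable ℂ F)
    (h : ∀ s : ℂ, 1 < s.re → F s = LI ψ s) : LL K ψ = F := by
  have h6 : ∃ F : ℂ → ℂ, Differentiable ℂ F ∧ ∀ s : ℂ, 1 < s.re → F s = LI ψ s := ⟨F, hF, h⟩
  unfold LL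
  rw [dif_pos h6]
  exact Pool.Agent.Y767.eq_of_LI h6.choose_spec.1 hF
    (fun s hs => (h6.choose_spec.2 s hs).trans (h s hs).symm)

end

section

variable (K : Type) [Field K] [NumberField K] [IsTotallyComplex K]

theorem main (h2 : Module.finrank ℚ K = 2) : ∃ η X₀ : ℝ, 0 < η ∧ ∀ 𝔮 : Ideal (𝓞 K), 𝔮 ≠ ⊥ →
    X₀ ≤ (Ideal.absNorm 𝔮 : ℝ) → ∃ S : Finset (Ideal (𝓞 K) →*₀ ℂ), (∀ ψ, ψ ∈ S ↔ ψ ∈ Fam 𝔮) ∧
      S.Nonempty ∧ ∀ T : ℝ, (Real.log (Ideal.absNorm 𝔮)) ^ 2 ≤ T → T ≤ (Ideal.absNorm 𝔮 : ℝ) ^ η →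
        1 ≤ T ∧ (∀ ψ ∈ S, (zset (LL K ψ) T (2 * T)).Finite) ∧
        0.6725 * ∑ ψ ∈ S, (NN (LL K ψ) T (2 * T) : ℝ) ≤ ∑ ψ ∈ S, (Ns (LL K ψ) T (2 * T) : ℝ) ∧
        0.83625 * ∑ ψ ∈ S, (NN (LL K ψ) T (2 * T) : ℝ) ≤ ∑ ψ ∈ S, (Nd (LL K ψ) T (2 * T) : ℝ) := by
  obtain ⟨γ, β, D, ε, h0, hπ, hβ, hβ2, hD, hε, hR0, hc0, hconst⟩ := consts
  obtain ⟨A, hA, hgood⟩ := good K
  obtain ⟨cb, Nb, hcb, hNb, hbig⟩ := fam_big' K h2 (ε := 1 / 2) (by norm_num) (by norm_num)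
  have hfr : (Module.finrank ℚ K : ℝ) = 2 := by rw [h2]; norm_num
  rw [hfr] at hgood
  set N2 : ℝ := max Nb 3 with hN2
  set J : Type := {𝔮 : Ideal (𝓞 K) // 𝔮 ≠ ⊥ ∧ N2 ≤ (Ideal.absNorm 𝔮 : ℝ)} with hJ
  have hNj : ∀ j : J, (3 : ℝ) ≤ (Ideal.absNorm j.1 : ℝ) := fun j => (le_max_right _ _).trans j.2.2
  have htop : ∀ j : J, j.1 ≠ ⊤ := by
    intro j h
    have := hNj j
    rw [h, Ideal.absNorm_top] at this
    norm_num at this
  have hfin : ∀ j : J, (Fam j.1).Finite := fun j =>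
    (Fam_finite j.2.1 (htop j) (fun x => tpos_all x)).1
  have hmem : ∀ j : J, ∀ ψ, ψ ∈ (hfin j).toFinset ↔ ψ ∈ Fam j.1 := fun j ψ =>
    (hfin j).mem_toFinset
  have hne : ∀ j : J, ((hfin j).toFinset).Nonempty := by
    intro j
    have h1 := hbig j.1 j.2.1 (htop j) ((le_max_left _ _).trans j.2.2)
    have h3 : 0 < ((Fam j.1).ncard : ℝ) := lt_of_lt_of_le
      (mul_pos hcb (Real.rpow_pos_of_pos (by linarith [hNj j]) _)) h1
    have h4 : 0 < (Fam j.1).ncard := by exact_mod_cast h3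
    rw [Set.Finite.toFinset_nonempty]
    exact (Set.ncard_pos (hfin j)).mp h4
  have hcard : ∀ j : J, (0 : ℝ) < ((hfin j).toFinset.card : ℝ) := fun j => by
    exact_mod_cast Finset.card_pos.mpr (hne j)
  obtain ⟨X, hX⟩ : ∃ X : J → ℝ, ∀ j, X j = (Ideal.absNorm j.1 : ℝ) ^ (1 / 2 : ℝ) :=
    ⟨_, fun _ => rfl⟩
  have hN0 : ∀ j : J, (0 : ℝ) < (Ideal.absNorm j.1 : ℝ) := fun j => by linarith [hNj j]
  have hX1 : ∀ j, 1 ≤ X j := fun j => by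
    rw [hX]; exact Real.one_le_rpow (by linarith [hNj j]) (by norm_num)
  have hXd : ∀ j, X j ^ (2 : ℝ) = (Ideal.absNorm j.1 : ℝ) := fun j => by
    rw [hX, ← Real.rpow_mul (hN0 j).le]; norm_num
  have hXN : ∀ j, X j ≤ (Ideal.absNorm j.1 : ℝ) := fun j => by
    rw [hX]
    calc (Ideal.absNorm j.1 : ℝ) ^ (1 / 2 : ℝ) ≤ (Ideal.absNorm j.1 : ℝ) ^ (1 : ℝ) :=
          Real.rpow_le_rpow_of_exponent_le (by linarith [hNj j]) (by norm_num)
      _ = _ := Real.rpow_one _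
  have hlogX : ∀ j, Real.log (X j) = 1 / 2 * Real.log (Ideal.absNorm j.1) := fun j => by
    rw [hX, Real.log_rpow (hN0 j)]
  have hGd : ∀ j : J, ∀ ψ ∈ (hfin j).toFinset, W388.LV.GoodG 2 A
      ((Ideal.absNorm (cd j.1 ψ) : ℝ) ^ (1 / 2 : ℝ)) (LL K ψ)
      (fun m => cc ψ m * (ArithmeticFunction.vonMangoldt m : ℂ)) := by
    intro j ψ hψ
    obtain ⟨h1, h3, h4⟩ := cd_spec ((hmem j ψ).mp hψ)
    obtain ⟨F, hF, hFL, hG⟩ := hgood _ ψ h3 h4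
    rw [LL_eq K hF hFL]
    exact hG
  -- the mean square
  have hmsq := msqV (cK K) (Pool.Agent.Y772.HC.t_mer K) 2 D (by norm_num) hD.le J
    (fun _ => Ideal (𝓞 K) →*₀ ℂ) (fun j => (hfin j).toFinset) X (fun j => Ideal.absNorm j.1)
    (fun _ ψ m => cc ψ m * (ArithmeticFunction.vonMangoldt m : ℂ)) (by
      intro j
      refine ⟨hX1 j, hne j, absNorm_pos' j.2.1, ?_⟩
      rw [hXd]) (by
      intro j ψ hψ m
      obtain ⟨h1, h3, h4⟩ := cd_spec ((hmem j ψ).mp hψ)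
      have h8 := Pool.Agent.Y772.DK.norm_cc_le ψ (h4.norm_le_one Pool.Agent.Y772.G.t_sig) m
      rw [norm_mul, Complex.norm_real,
        Real.norm_of_nonneg ArithmeticFunction.vonMangoldt_nonneg]
      rw [hfr] at h8
      exact mul_le_mul_of_nonneg_right h8 ArithmeticFunction.vonMangoldt_nonneg) (by
      intro ε0 he0 he1
      obtain ⟨N0, hN0', hls⟩ := fam_ls K h2 hD he0
      refine ⟨N0, fun j hj M hM b => ?_⟩
      have h3 := hls j.1 j.2.1 (htop j) _ (hmem j) (hj.trans (hXN j)) M (by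
        refine hM.trans (le_of_eq ?_)
        rw [Real.rpow_mul (by linarith [hX1 j]), hXd]) b
      exact h3) γ β h0 hπ hβ hβ2
  obtain ⟨η, X0, hη, hX0, hres⟩ := coreV 2 A (by norm_num) hA J
    (fun _ => Ideal (𝓞 K) →*₀ ℂ) (fun j => (hfin j).toFinset)
    (fun j _ => ((hfin j).toFinset.card : ℝ)⁻¹) X
    (fun j ψ => (Ideal.absNorm (cd j.1 ψ) : ℝ) ^ (1 / 2 : ℝ)) (fun _ ψ => LL K ψ)
    (fun _ ψ m => cc ψ m * (ArithmeticFunction.vonMangoldt m : ℂ)) hX1 (by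
      intro j ψ hψ
      obtain ⟨h1, h3, h4⟩ := cd_spec ((hmem j ψ).mp hψ)
      have h5 := one_le_norm K h4.ne_bot
      refine ⟨inv_nonneg.mpr (Nat.cast_nonneg _), Real.one_le_rpow h5 (by norm_num), ?_,
        hGd j ψ hψ⟩
      rw [hX]
      refine Real.rpow_le_rpow (by linarith) ?_ (by norm_num)
      have h6 : Ideal.absNorm (cd j.1 ψ) ≤ Ideal.absNorm j.1 :=
        Nat.le_of_dvd (absNorm_pos' j.2.1)
          (Ideal.absNorm_dvd_absNorm_of_le (Ideal.dvd_iff_le.mp h1))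
      exact_mod_cast h6) (by
      intro δ hδ
      obtain ⟨N0, hN0', hcd⟩ := fam_cond K h2 hδ
      refine ⟨N0, fun j hj => ?_⟩
      have h3 := hcd j.1 j.2.1 (htop j) _ (hmem j) (hj.trans (hXN j))
      have hc := hcard j
      rw [← Finset.mul_sum, Finset.sum_const, nsmul_eq_mul, mul_inv_cancel₀ hc.ne', mul_one,
        inv_mul_le_iff₀ hc, hlogX]
      have h4 : ∑ ψ ∈ (hfin j).toFinset, (1 / 2 * Real.log (Ideal.absNorm j.1) -
          Real.log ((Ideal.absNorm (cd j.1 ψ) : ℝ) ^ (1 / 2 : ℝ))) =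
          1 / 2 * ∑ ψ ∈ (hfin j).toFinset, (Real.log (Ideal.absNorm j.1) -
            Real.log (Ideal.absNorm (cd j.1 ψ))) := by
        rw [Finset.mul_sum]
        refine Finset.sum_congr rfl fun ψ hψ => ?_
        have h5 := one_le_norm K (cd_spec ((hmem j ψ).mp hψ)).2.2.ne_bot
        rw [Real.log_rpow (by linarith)]
        ring
      rw [h4]
      linarith) γ β _ h0 hπ hβ hc0 hR0 hmsq ε hε
  refine ⟨η / 2, max N2 (X0 ^ (2 : ℝ)), by positivity, fun 𝔮 hbot hN => ?_⟩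
  have hN2' : N2 ≤ (Ideal.absNorm 𝔮 : ℝ) := (le_max_left _ _).trans hN
  have hN3 : X0 ^ (2 : ℝ) ≤ (Ideal.absNorm 𝔮 : ℝ) := (le_max_right _ _).trans hN
  set j : J := ⟨𝔮, hbot, hN2'⟩ with hj
  have hNp : (0 : ℝ) < Ideal.absNorm 𝔮 := hN0 j
  refine ⟨(hfin j).toFinset, hmem j, hne j, fun T hT1 hT2 => ?_⟩
  have hXj : X j = (Ideal.absNorm 𝔮 : ℝ) ^ (1 / 2 : ℝ) := hX j
  have hX0j : X0 ≤ X j := by
    rw [hXj]
    calc X0 = (X0 ^ (2 : ℝ)) ^ (1 / 2 : ℝ) := by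
          rw [← Real.rpow_mul (by linarith)]; norm_num
      _ ≤ _ := Real.rpow_le_rpow (by positivity) hN3 (by norm_num)
  have hlog1 : 1 ≤ Real.log (Ideal.absNorm 𝔮) := by
    rw [Real.le_log_iff_exp_le hNp]
    exact (Real.exp_one_lt_d9.le.trans (by norm_num)).trans (hNj j)
  have hT0 : 1 ≤ T := by nlinarith
  have hL2 : (Real.log (X j)) ^ 2 ≤ T := by
    refine le_trans ?_ hT1
    rw [hXj, Real.log_rpow hNp]
    nlinarith
  have hTη : T ≤ (X j) ^ η := by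
    refine hT2.trans (le_of_eq ?_)
    rw [hXj, ← Real.rpow_mul hNp.le]
    congr 1; ring
  obtain ⟨r1, r2⟩ := hres j T hX0j hL2 hTη
  have hc := hcard j
  have hκ : (2 * Rw γ 0 / β + 2 * β * (∫ α in (0 : ℝ)..1, α * Rw γ α) * D / 2 + ε) ≤ 1.3275 := hconst
  rw [← Finset.mul_sum, ← Finset.mul_sum] at r1 r2
  have hSN : 0 ≤ ∑ ψ ∈ (hfin j).toFinset, (NN (LL K ψ) T (2 * T) : ℝ) :=
    Finset.sum_nonneg fun _ _ => Nat.cast_nonneg _
  have hred : ∀ (A B κ : ℝ), (((hfin j).toFinset.card : ℝ)⁻¹ * A ≤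
      κ * (((hfin j).toFinset.card : ℝ)⁻¹ * B)) → A ≤ κ * B := by
    intro A B κ h
    have h' : ((hfin j).toFinset.card : ℝ)⁻¹ * A ≤ ((hfin j).toFinset.card : ℝ)⁻¹ * (κ * B) := by
      refine h.trans (le_of_eq ?_); ring
    exact le_of_mul_le_mul_left h' (inv_pos.mpr hc)
  have r1' := hred _ _ _ r1
  have r2' := hred _ _ _ r2
  have r3 := mul_le_mul_of_nonneg_right hκ hSN
  rw [Finset.sum_sub_distrib] at r1' r2'
  rw [← Finset.mul_sum] at r1'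
  rw [← Finset.mul_sum, ← Finset.mul_sum] at r2'
  refine ⟨hT0, fun ψ hψ => ?_, by linarith, by linarith⟩
  have h5 := one_le_norm K (cd_spec ((hmem j ψ).mp hψ)).2.2.ne_bot
  exact W388.LV.zset_finite_D hA (Real.one_le_rpow h5 (by norm_num)) (hGd j ψ hψ) T (2 * T) hT0

end

end Pool.Agent.Y773.IQ
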