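import Pool.Agent.W388.LV.FinE

/-!
# The zeros of a family with variable conductors, from the mean square hypothesis

As `W388.LV.t_coreL`, but the members of the family `s j` may have different conductors
`(Q j i)^d`, `Q j i ≤ X j`, if `∑ ω (log X - log Q)` is small on average.
-/

set_option autoImplicit false
set_option maxHeartbeats 4000000

open Complex Filter Topology Set MeasureTheory
open H370 (zset mult NN Nd Ns)
open H385 (Rw bt)
open W388.LV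

namespace Pool.Agent.Y773.IQ

theorem coreV_aux (d A : ℝ) (hd : 1 ≤ d) (hA : 1 ≤ A) (J : Type) (ι : J → Type)
    (s : (j : J) → Finset (ι j)) (ω : (j : J) → ι j → ℝ) (X : J → ℝ) (Q : (j : J) → ι j → ℝ)
    (F : (j : J) → ι j → ℂ → ℂ) (a : (j : J) → ι j → ℕ → ℂ)
    (hXj : ∀ j, 1 ≤ X j)
    (hgood : ∀ j, ∀ i ∈ s j, 0 ≤ ω j i ∧ 1 ≤ Q j i ∧ Q j i ≤ X j ∧
      GoodG d A (Q j i) (F j i) (a j i))
    (θ : ℝ) (hθ0 : 0 < θ) (hθ1 : θ ≤ 1)
    (hcond : ∃ X0 : ℝ, ∀ j, X0 ≤ X j →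
      ∑ i ∈ s j, ω j i * (Real.log (X j) - Real.log (Q j i)) ≤
        (1 - θ) * Real.log (X j) * ∑ i ∈ s j, ω j i)
    (γ β c' : ℝ) (h0 : 0 < γ) (hπ : γ < Real.pi) (hβ : 0 < β) (hc' : 0 ≤ c') (hR0 : 0 ≤ Rw γ 0)
    (H : HYL s ω X a γ β c') (ε : ℝ) (hε : 0 < ε) : ∃ η X0 : ℝ, 0 < η ∧ 1 ≤ X0 ∧
    ∀ (j : J) (T : ℝ), X0 ≤ X j → (Real.log (X j)) ^ 2 ≤ T → T ≤ (X j) ^ η →
      ∑ i ∈ s j, ω j i * (2 * (NN (F j i) T (2 * T) : ℝ) - (Ns (F j i) T (2 * T) : ℝ)) ≤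
        (d * Rw γ 0 / β + c' / d + ε) *
          (θ⁻¹ * ∑ i ∈ s j, ω j i * (NN (F j i) T (2 * T) : ℝ)) ∧
      ∑ i ∈ s j, ω j i * (3 * (NN (F j i) T (2 * T) : ℝ) - 2 * (Nd (F j i) T (2 * T) : ℝ)) ≤
        (d * Rw γ 0 / β + c' / d + ε) *
          (θ⁻¹ * ∑ i ∈ s j, ω j i * (NN (F j i) T (2 * T) : ℝ)) := by
  obtain ⟨C1, hC1, hfam⟩ := fam_abstract_D γ h0 hπ d A hd hA
  obtain ⟨C1', hC1', hfam'⟩ := fam_abstract_d_D γ h0 hπ d A hd hA
  obtain ⟨C3, hC3, hlow⟩ := N_lower_D d A hd hA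
  obtain ⟨Xc, hXc⟩ := hcond
  have hd0 : 0 < d := by linarith
  have hθi : 1 ≤ θ⁻¹ := (one_le_inv₀ hθ0).mpr hθ1
  obtain ⟨C2, hC2d⟩ : ∃ C2 : ℝ, C2 = θ⁻¹ * C3 := ⟨_, rfl⟩
  have hC2 : 0 < C2 := by rw [hC2d]; positivity
  -- choose ε1
  have hpi := Real.pi_pos
  set CC : ℝ := max C1 C1' with hCC
  have hCC0 : 0 < CC := lt_max_of_lt_left hC1
  obtain ⟨ε1, hε1, hε1a, hε1b⟩ : ∃ ε1 : ℝ, 0 < ε1 ∧ ε1 ≤ ε / 8 ∧
      6 * Real.pi * CC * ε1 / β ≤ ε / 8 := by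
    refine ⟨min (ε / 8) (ε / 8 * β / (6 * Real.pi * CC)), ?_, min_le_left _ _, ?_⟩
    · exact lt_min (by positivity) (by positivity)
    · have : 6 * Real.pi * CC * min (ε / 8) (ε / 8 * β / (6 * Real.pi * CC)) ≤
          6 * Real.pi * CC * (ε / 8 * β / (6 * Real.pi * CC)) := by
        gcongr; exact min_le_right _ _
      rw [div_le_iff₀ hβ]
      refine this.trans (le_of_eq ?_)
      field_simp
  obtain ⟨η0, X0, hη0, hX0, hmain⟩ := H ε1 hε1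
  -- choose η
  obtain ⟨η, hη, hη1, hηη0, hη2⟩ : ∃ η : ℝ, 0 < η ∧ η ≤ 1 ∧ η ≤ η0 ∧
      8 * η * (d ^ 2 * Rw γ 0 / β) ≤ ε / 8 := by
    refine ⟨min (min 1 η0) (ε / 64 / (d ^ 2 * Rw γ 0 / β + 1)), ?_, ?_, ?_, ?_⟩
    · exact lt_min (lt_min one_pos hη0) (by positivity)
    · exact (min_le_left _ _).trans (min_le_left _ _)
    · exact (min_le_left _ _).trans (min_le_right _ _)
    · have h1 : min (min 1 η0) (ε / 64 / (d ^ 2 * Rw γ 0 / β + 1)) ≤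
          ε / 64 / (d ^ 2 * Rw γ 0 / β + 1) := min_le_right _ _
      have h2 : 0 ≤ d ^ 2 * Rw γ 0 / β := by positivity
      have h3 : ε / 64 / (d ^ 2 * Rw γ 0 / β + 1) * (d ^ 2 * Rw γ 0 / β) ≤ ε / 64 := by
        rw [div_mul_eq_mul_div, div_le_iff₀ (by positivity)]
        exact H385.NL.b9 (by positivity)
      have h4 : min (min 1 η0) (ε / 64 / (d ^ 2 * Rw γ 0 / β + 1)) * (d ^ 2 * Rw γ 0 / β) ≤
          ε / 64 / (d ^ 2 * Rw γ 0 / β + 1) * (d ^ 2 * Rw γ 0 / β) :=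
        mul_le_mul_of_nonneg_right h1 h2
      exact H385.NL.b10 h4 h3
  -- choose L0
  set L0 : ℝ := 8 + 5 * β + 1 / β + CC * (12 / β + 3) * (2 * Real.pi) * (8 / ε) +
    10 * Real.pi * C2 * (d ^ 2 * Rw γ 0 / β + c' + ε) * (2 / ε) with hL0
  have hL0a : 5 * β + 8 ≤ L0 := by
    have : 0 ≤ 1 / β + CC * (12 / β + 3) * (2 * Real.pi) * (8 / ε) +
      10 * Real.pi * C2 * (d ^ 2 * Rw γ 0 / β + c' + ε) * (2 / ε) := by positivity
    rw [hL0]; linarith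
  have hL0b : 1 / β ≤ L0 := by
    have : 0 ≤ 8 + 5 * β + CC * (12 / β + 3) * (2 * Real.pi) * (8 / ε) +
      10 * Real.pi * C2 * (d ^ 2 * Rw γ 0 / β + c' + ε) * (2 / ε) := by positivity
    rw [hL0]; linarith
  have hL0c : CC * (12 / β + 3) * (2 * Real.pi) ≤ ε / 8 * L0 := by
    have h1 : 0 ≤ 8 + 5 * β + 1 / β +
      10 * Real.pi * C2 * (d ^ 2 * Rw γ 0 / β + c' + ε) * (2 / ε) := by positivity
    have h2 : ε / 8 * L0 = CC * (12 / β + 3) * (2 * Real.pi) + ε / 8 * (8 + 5 * β + 1 / β +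
      10 * Real.pi * C2 * (d ^ 2 * Rw γ 0 / β + c' + ε) * (2 / ε)) := by
      rw [hL0]; field_simp; ring
    rw [h2]
    have := mul_nonneg (show 0 ≤ ε / 8 by positivity) h1
    linarith
  have hL0d : 10 * Real.pi * C2 * (d ^ 2 * Rw γ 0 / β + c' + ε) ≤ ε / 2 * L0 := by
    have h1 : 0 ≤ 8 + 5 * β + 1 / β + CC * (12 / β + 3) * (2 * Real.pi) * (8 / ε) := by positivity
    have h2 : ε / 2 * L0 = 10 * Real.pi * C2 * (d ^ 2 * Rw γ 0 / β + c' + ε) +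
        ε / 2 * (8 + 5 * β + 1 / β + CC * (12 / β + 3) * (2 * Real.pi) * (8 / ε)) := by
      rw [hL0]; field_simp; ring
    rw [h2]
    have := mul_nonneg (show 0 ≤ ε / 2 by positivity) h1
    linarith
  refine ⟨η, max (max X0 Xc) (Real.exp L0), hη, le_max_of_le_left (le_max_of_le_left hX0), ?_⟩
  intro j T hX hT1 hT2
  have hXX0 : X0 ≤ X j := ((le_max_left _ _).trans (le_max_left _ _)).trans hX
  have hXXc : Xc ≤ X j := ((le_max_right _ _).trans (le_max_left _ _)).trans hX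
  have hXe : Real.exp L0 ≤ X j := (le_max_right _ _).trans hX
  have hX1 : (1 : ℝ) ≤ X j := hX0.trans hXX0
  have hXpos : (0 : ℝ) < X j := by linarith
  set L : ℝ := Real.log (X j) with hL
  have hLL0 : L0 ≤ L := by
    rw [hL, Real.le_log_iff_exp_le hXpos]; exact hXe
  have hXη : (X j) ^ η = Real.exp (η * L) := by
    rw [Real.rpow_def_of_pos hXpos, mul_comm]
  have hT2' : T ≤ Real.exp (η * L) := by rw [← hXη]; exact hT2
  obtain ⟨p1, p2, p3, p4, p5, p6⟩ := H385.param_ok β L T η hβ hη1 (by linarith) (by linarith)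
    hT1 hT2'
  obtain ⟨-, -, -, -, p5', -⟩ := H385.param_ok (5 / 4 * β) L T η (by positivity) hη1
    (by linarith) (by
      refine le_trans ?_ (hL0b.trans hLL0)
      apply one_div_le_one_div_of_le hβ
      linarith) hT1 hT2'
  have hTpos : 0 < T := by linarith
  have hL8 : 8 ≤ L := by linarith
  have hYη : Real.log (X j * T) ≤ (1 + 2 * η) * L := by
    rw [Real.log_mul hXpos.ne' hTpos.ne']
    have h2 : Real.log T ≤ η * L := by
      have := Real.log_le_log hTpos hT2'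
      rwa [Real.log_exp] at this
    have h3 : 0 ≤ η * L := by positivity
    linarith
  obtain ⟨Yf, y1, y2, hy1, hy2, m1, m2, m3, m4, m5⟩ := hmain j T hXX0 hT1
    (hT2.trans (Real.rpow_le_rpow_of_exponent_le hX1 hηη0))
  -- family data
  have hQT : ∀ p ∈ s j, Real.log (Q j p * T) ≤ Real.log (X j * T) := by
    intro p hp
    have h1 := (hgood j p hp).2.1
    exact Real.log_le_log (by positivity)
      (mul_le_mul_of_nonneg_right (hgood j p hp).2.2.1 hTpos.le)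
  have hdata : ∀ p ∈ s j, 0 ≤ ω j p ∧ (1 : ℝ) ≤ Q j p ∧
      GoodG d A (Q j p) (F j p) (a j p) ∧ Real.log (Q j p * T) ≤ (1 + 2 * η) * L := by
    intro p hp
    exact ⟨(hgood j p hp).1, (hgood j p hp).2.1, (hgood j p hp).2.2.2, (hQT p hp).trans hYη⟩
  have hLm : (1 + 2 * η) * L ≤ 3 * L := mul_le_mul_of_nonneg_right (by linarith) (by linarith)
  have hLm1 : 1 ≤ (1 + 2 * η) * L := H385.NL.b12 hη (by linarith)
  have hLm0 : 0 ≤ (1 + 2 * η) * L := by linarith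
  have hLm2 : ((1 + 2 * η) * L) ^ 2 ≤ 9 * L ^ 2 := by
    have h0 : ((1 + 2 * η) * L) ^ 2 ≤ (3 * L) ^ 2 := pow_le_pow_left₀ hLm0 hLm 2
    linarith [show (3 * L) ^ 2 = 9 * L ^ 2 by ring]
  have hW0 : 0 ≤ ∑ p ∈ s j, ω j p := Finset.sum_nonneg fun p hp => (hgood j p hp).1
  have hexp : ((1 + 2 * η) * L) ^ 2 * Real.exp (5 / 4 * (β * L) - L ^ 2 / 2) ≤
      Real.exp (-(β * L)) := by
    refine le_trans (mul_le_mul_of_nonneg_right hLm2 (Real.exp_pos _).le) ?_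
    have e1 : 5 / 4 * (β * L) = 5 / 4 * β * L := by ring
    rw [e1]
    refine p5'.trans (Real.exp_le_exp.2 ?_)
    have : 0 ≤ β * L := by positivity
    linarith
  have k1 := hfam (s j) (ω j) (Q j) (F j) (a j)
    T L (β * L) ((1 + 2 * η) * L) y1 y2 Yf hdata p1 p2 p3 p4 hLm1 hexp hy1 hy2 m1 m2 m3
  have k2 := hfam' (s j) (ω j) (Q j) (F j) (a j)
    T L (β * L) ((1 + 2 * η) * L) y1 y2 Yf hdata p1 p2 p3 p4 hLm1 hexp hy1 hy2 m1 m2 m3
  -- lower bound for the number of zeros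
  have hone : ∀ p ∈ s j, ω j p * (d * (T / (2 * Real.pi) * Real.log (Q j p)) - 5 * C3 * T) ≤
      ω j p * (NN (F j p) T (2 * T) : ℝ) := by
    intro p hp
    refine mul_le_mul_of_nonneg_left ?_ (hgood j p hp).1
    have hT1' : 1 ≤ T := by linarith
    have hQ1 := (hgood j p hp).2.1
    have hQpos : 0 < Q j p := by linarith
    have hl := hlow (Q j p) (F j p) (a j p) hQ1 (hgood j p hp).2.2.2 T L p1 p2
    have hlog0 : 0 ≤ Real.log (Q j p * T) := Real.log_nonneg (by nlinarith)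
    have hlog1 : Real.log (Q j p) ≤ Real.log (Q j p * T) := by
      refine Real.log_le_log hQpos ?_
      calc Q j p = Q j p * 1 := (mul_one _).symm
        _ ≤ Q j p * T := mul_le_mul_of_nonneg_left hT1' hQpos.le
    have hlog2 : Real.log (Q j p * T) ≤ 3 * L := ((hQT p hp).trans hYη).trans hLm
    refine le_trans ?_ hl
    have a1 : d * (T / (2 * Real.pi) * Real.log (Q j p)) ≤
        T / (2 * Real.pi) * (d * Real.log (Q j p * T)) := by
      calc d * (T / (2 * Real.pi) * Real.log (Q j p)) =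
          T / (2 * Real.pi) * (d * Real.log (Q j p)) := by ring
        _ ≤ _ := mul_le_mul_of_nonneg_left (mul_le_mul_of_nonneg_left hlog1 hd0.le) (by positivity)
    have a2 : L * Real.log (Q j p * T) ≤ 3 * T := by
      have : L * Real.log (Q j p * T) ≤ L * (3 * L) := mul_le_mul_of_nonneg_left hlog2 (by linarith)
      linarith [show L * (3 * L) = 3 * L ^ 2 by ring]
    have a3 : T * Real.log (Q j p * T) ^ 2 * Real.exp (-L ^ 2 / 2) ≤ T := by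
      have b1 : Real.log (Q j p * T) ^ 2 ≤ (3 * L) ^ 2 := pow_le_pow_left₀ hlog0 hlog2 2
      have b2 : Real.log (Q j p * T) ^ 2 * Real.exp (-L ^ 2 / 2) ≤ 1 := by
        refine le_trans (mul_le_mul_of_nonneg_right b1 (Real.exp_pos _).le) ?_
        rw [show (3 * L) ^ 2 = 9 * L ^ 2 by ring]; exact p6
      calc _ = T * (Real.log (Q j p * T) ^ 2 * Real.exp (-L ^ 2 / 2)) := by ring
        _ ≤ T * 1 := mul_le_mul_of_nonneg_left b2 hTpos.le
        _ = T := mul_one T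
    have a4 : C3 * (T + L * Real.log (Q j p * T) + T * Real.log (Q j p * T) ^ 2 *
        Real.exp (-L ^ 2 / 2)) ≤ C3 * (5 * T) := mul_le_mul_of_nonneg_left (by linarith) hC3.le
    linarith
  obtain ⟨SN, hSNd⟩ : ∃ SN : ℝ, SN = ∑ p ∈ s j, ω j p * (NN (F j p) T (2 * T) : ℝ) := ⟨_, rfl⟩
  obtain ⟨W, hWd⟩ : ∃ W : ℝ, W = ∑ p ∈ s j, ω j p := ⟨_, rfl⟩
  have hSN0 : 0 ≤ SN := by
    rw [hSNd]
    exact Finset.sum_nonneg fun p hp => mul_nonneg (hgood j p hp).1 (Nat.cast_nonneg _)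
  have hN : W * (d * (T / (2 * Real.pi) * L) - 5 * C2 * T) ≤ θ⁻¹ * SN := by
    have h1 := Finset.sum_le_sum hone
    rw [← hSNd] at h1
    have h2 := hXc j hXXc
    rw [← hWd] at h2
    have h3 : ∑ p ∈ s j, ω j p * (d * (T / (2 * Real.pi) * Real.log (Q j p)) - 5 * C3 * T) =
        d * (T / (2 * Real.pi)) * (L * W - ∑ p ∈ s j, ω j p * (L - Real.log (Q j p))) -
          5 * C3 * T * W := by
      rw [hWd, Finset.mul_sum, Finset.mul_sum, ← Finset.sum_sub_distrib, Finset.mul_sum,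
        ← Finset.sum_sub_distrib]
      refine Finset.sum_congr rfl fun p _ => ?_
      ring
    rw [h3] at h1
    have h4 : 0 ≤ d * (T / (2 * Real.pi)) := by positivity
    have h5 : d * (T / (2 * Real.pi)) * (θ * L * W) ≤
        d * (T / (2 * Real.pi)) * (L * W - ∑ p ∈ s j, ω j p * (L - Real.log (Q j p))) :=
      mul_le_mul_of_nonneg_left (by linarith) h4
    have h6 : θ * (W * (d * (T / (2 * Real.pi) * L) - 5 * C2 * T)) ≤ SN := by
      have e1 : θ * (W * (d * (T / (2 * Real.pi) * L) - 5 * C2 * T)) =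
          d * (T / (2 * Real.pi)) * (θ * L * W) - 5 * C3 * T * W := by
        rw [hC2d]
        field_simp
      rw [e1]
      linarith
    rw [inv_mul_eq_div, le_div_iff₀ hθ0]
    linarith
  have hL0L : ε / 8 * L0 ≤ ε / 8 * L := mul_le_mul_of_nonneg_left hLL0 (by positivity)
  have hL0L' : ε / 2 * L0 ≤ ε / 2 * L := mul_le_mul_of_nonneg_left hLL0 (by positivity)
  have hθSN : 0 ≤ θ⁻¹ * SN := by positivity
  have core : ∀ (D : ℝ) (SM : ℝ), 0 < D → D ≤ CC →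
      SM ≤ (∑ p ∈ s j, ω j p) * (d * ((1 + 2 * η) * L)) ^ 2 * Rw γ 0 * T /
          (2 * Real.pi * (β * L)) +
        (2 / (Real.sqrt Real.pi * (β * L))) * (∫ u in (0 : ℝ)..(β * L), Rw γ (u / (β * L)) * Yf u) +
      D * ((∑ p ∈ s j, ω j p) * (((1 + 2 * η) * L) ^ 2 * L / (β * L) +
        ((1 + 2 * η) * L) * T / (β * L) +
        L * ((1 + 2 * η) * L)) + Real.sqrt (∑ p ∈ s j, ω j p) * ((1 + 2 * η) * L) * T *
          (Real.sqrt y1 + Real.sqrt y2) / (β * L)) →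
      SM ≤ (d * Rw γ 0 / β + c' / d + ε) *
        (θ⁻¹ * ∑ p ∈ s j, ω j p * (NN (F j p) T (2 * T) : ℝ)) := by
    intro D SM hD hDC hSM
    rw [← hSNd]
    rw [← hWd] at hSM m4 m5
    have hW0' : 0 ≤ W := by rw [hWd]; exact hW0
    refine H385.numeric_core_D d β c' ε (Rw γ 0) D C2 η ε1 L T W _ SM _ _ hd hβ
      hc' hε hR0 hD hC2 hη hη1 hε1 hL8 hT1 hW0' hη2 hε1a ?_ ?_ ?_ m4 m5 hSM hN hθSN
    · refine le_trans ?_ (hL0c.trans hL0L)
      have : 0 ≤ (12 / β + 3) * (2 * Real.pi) := by positivity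
      rw [mul_assoc, mul_assoc]
      exact mul_le_mul_of_nonneg_right hDC this
    · refine le_trans ?_ hε1b
      gcongr
    · exact hL0d.trans hL0L'
  constructor
  · exact core C1 _ hC1 (le_max_left _ _) (k1.trans (le_of_eq (by ring)))
  · exact core C1' _ hC1' (le_max_right _ _) (k2.trans (le_of_eq (by ring)))

/-- the zeros, from the mean square hypothesis, variable conductors -/
theorem coreV (d A : ℝ) (hd : 1 ≤ d) (hA : 1 ≤ A) (J : Type) (ι : J → Type)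
    (s : (j : J) → Finset (ι j)) (ω : (j : J) → ι j → ℝ) (X : J → ℝ) (Q : (j : J) → ι j → ℝ)
    (F : (j : J) → ι j → ℂ → ℂ) (a : (j : J) → ι j → ℕ → ℂ)
    (hXj : ∀ j, 1 ≤ X j)
    (hgood : ∀ j, ∀ i ∈ s j, 0 ≤ ω j i ∧ 1 ≤ Q j i ∧ Q j i ≤ X j ∧
      GoodG d A (Q j i) (F j i) (a j i))
    (hcond : ∀ δ : ℝ, 0 < δ → ∃ X0 : ℝ, ∀ j, X0 ≤ X j →
      ∑ i ∈ s j, ω j i * (Real.log (X j) - Real.log (Q j i)) ≤
        δ * Real.log (X j) * ∑ i ∈ s j, ω j i)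
    (γ β c' : ℝ) (h0 : 0 < γ) (hπ : γ < Real.pi) (hβ : 0 < β) (hc' : 0 ≤ c') (hR0 : 0 ≤ Rw γ 0)
    (H : HYL s ω X a γ β c') (ε : ℝ) (hε : 0 < ε) : ∃ η X0 : ℝ, 0 < η ∧ 1 ≤ X0 ∧
    ∀ (j : J) (T : ℝ), X0 ≤ X j → (Real.log (X j)) ^ 2 ≤ T → T ≤ (X j) ^ η →
      ∑ i ∈ s j, ω j i * (2 * (NN (F j i) T (2 * T) : ℝ) - (Ns (F j i) T (2 * T) : ℝ)) ≤
        (d * Rw γ 0 / β + c' / d + ε) * ∑ i ∈ s j, ω j i * (NN (F j i) T (2 * T) : ℝ) ∧
      ∑ i ∈ s j, ω j i * (3 * (NN (F j i) T (2 * T) : ℝ) - 2 * (Nd (F j i) T (2 * T) : ℝ)) ≤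
        (d * Rw γ 0 / β + c' / d + ε) * ∑ i ∈ s j, ω j i * (NN (F j i) T (2 * T) : ℝ) := by
  have hd0 : 0 < d := by linarith
  obtain ⟨κ, hκ⟩ : ∃ κ : ℝ, κ = d * Rw γ 0 / β + c' / d + ε / 2 := ⟨_, rfl⟩
  have hκ0 : 0 < κ := by rw [hκ]; positivity
  obtain ⟨θ, hθd⟩ : ∃ θ : ℝ, θ = κ / (κ + ε / 2) := ⟨_, rfl⟩
  have hθ0 : 0 < θ := by rw [hθd]; positivity
  have hθ1 : θ < 1 := by
    rw [hθd, div_lt_one (by positivity)]
    linarith
  obtain ⟨η, X0, hη, hX0, h⟩ := coreV_aux d A hd hA J ι s ω X Q F a hXj hgood θ hθ0 hθ1.le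
    (hcond (1 - θ) (by linarith)) γ β c' h0 hπ hβ hc' hR0 H (ε / 2) (by positivity)
  refine ⟨η, X0, hη, hX0, fun j T h1 h2 h3 => ?_⟩
  have e : ∀ S : ℝ, (d * Rw γ 0 / β + c' / d + ε / 2) * (θ⁻¹ * S) =
      (d * Rw γ 0 / β + c' / d + ε) * S := by
    intro S
    rw [← hκ, ← mul_assoc]
    congr 1
    rw [hθd, inv_div, mul_div_cancel₀ _ hκ0.ne', hκ]
    ring
  obtain ⟨a1, a2⟩ := h j T h1 h2 h3
  rw [e] at a1 a2
  exact ⟨a1, a2⟩

end Pool.Agent.Y773.IQ
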