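import Pool.Agent.Y773.IQ.Ray
import Pool.Agent.Y287.HC.BesFin

/-! # The ray class group modulo `𝔮`: bounds for the order, orthogonality -/

set_option autoImplicit false
set_option linter.unusedSectionVars false

open NumberField

namespace Pool.Agent.Y773.IQ

open Pool.Agent.Y773 (TPos)
open Pool.Agent.Y767 (Mq Mq_cop Mq_ne_bot Mq_cancel isUnit_mk coprime_of_isUnit Cls cls cls_eq
  cls_of_mul cls_pi cls_div ext_mon exists_lam card_dual finite_dual bes_cls Tq Tq_cop pq pq_coe)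

section

variable {K : Type} [Field K] [NumberField K]

lemma cls_congr {𝔮 : Ideal (𝓞 K)} (htop : 𝔮 ≠ ⊤) {x y : 𝓞 K} (hx : IsCoprime (Ideal.span {x}) 𝔮)
    (hy : IsCoprime (Ideal.span {y}) 𝔮) (h : x - y ∈ 𝔮) :
    cls (pi1 htop) ⟨Ideal.span {x}, hx⟩ = cls (pi1 htop) ⟨Ideal.span {y}, hy⟩ := by
  obtain ⟨w, hw⟩ := exists_inv hx
  have hw' : w * y - 1 ∈ 𝔮 := by
    have : w * y - 1 = (w * x - 1) - w * (x - y) := by ring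
    rw [this]; exact sub_mem hw (Ideal.mul_mem_left _ _ h)
  refine cls_of_mul (π := pi1 htop) (a := ⟨w * y, hw'⟩) (b := ⟨w * x, hw⟩) ?_
  apply Subtype.ext
  rw [Submonoid.coe_mul, Submonoid.coe_mul, pi1_coe, pi1_coe,
    Ideal.span_singleton_mul_span_singleton, Ideal.span_singleton_mul_span_singleton]
  congr 2
  ring

lemma exists_compl {𝔮 : Ideal (𝓞 K)} (htop : 𝔮 ≠ ⊤) (𝔟 : Mq 𝔮) : ∃ (x : 𝓞 K) (𝔠 : Mq 𝔮),
    x - 1 ∈ 𝔮 ∧ Ideal.span {x} = (𝔟 : Ideal (𝓞 K)) * (𝔠 : Ideal (𝓞 K)) ∧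
      cls (pi1 htop) 𝔟 * cls (pi1 htop) 𝔠 = 1 := by
  obtain ⟨x, 𝔠, h1, h2, h3⟩ := exists_mem_one (Mq_cop 𝔟)
  refine ⟨x, ⟨𝔠, h3⟩, h1, h2, ?_⟩
  rw [← map_mul, ← cls_pi (pi1 htop) ⟨x, h1⟩]
  congr 1
  apply Subtype.ext
  rw [pi1_coe, Submonoid.coe_mul]
  exact h2.symm

lemma exists_rep {𝔮 : Ideal (𝓞 K)} (htop : 𝔮 ≠ ⊤) (c : Cls (pi1 htop)) :
    ∃ 𝔞 : Mq 𝔮, cls (pi1 htop) 𝔞 = c := by
  obtain ⟨a, b, hab⟩ := cls_div (pi1 htop) c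
  obtain ⟨-, 𝔠, -, -, h⟩ := exists_compl htop b
  refine ⟨a * 𝔠, ?_⟩
  rw [map_mul, ← hab, mul_assoc, h, mul_one]

lemma same_class {𝔮 : Ideal (𝓞 K)} (htop : 𝔮 ≠ ⊤) {𝔞 𝔟 : Mq 𝔮} {x y : 𝓞 K} (hx : x ≠ 0)
    (h : Ideal.span {x} * (𝔞 : Ideal (𝓞 K)) = Ideal.span {y} * (𝔟 : Ideal (𝓞 K))) :
    ∃ (x' y' : 𝓞 K) (_ : x' - 1 ∈ 𝔮) (_ : IsCoprime (Ideal.span {y'}) 𝔮),
      Ideal.span {x'} * (𝔞 : Ideal (𝓞 K)) = Ideal.span {y'} * (𝔟 : Ideal (𝓞 K)) := by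
  obtain ⟨x', 𝔠, h1, h2, -⟩ := exists_compl htop 𝔟
  have h3 : Ideal.span {x} * ((𝔞 : Ideal (𝓞 K)) * 𝔠) = Ideal.span {y * x'} := by
    rw [← mul_assoc, h, mul_assoc, ← h2, Ideal.span_singleton_mul_span_singleton]
  have h4 : y * x' ∈ Ideal.span {x} := by
    have h5 : Ideal.span {y * x'} ≤ Ideal.span {x} := by
      rw [← h3]; exact Ideal.mul_le_left
    exact h5 (Ideal.mem_span_singleton_self _)
  obtain ⟨y', hy'⟩ := Ideal.mem_span_singleton'.mp h4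
  have h6 : (𝔞 : Ideal (𝓞 K)) * 𝔠 = Ideal.span {y'} := by
    apply mul_left_cancel₀ (a := Ideal.span {x})
    · rw [Ne, Ideal.zero_eq_bot, Ideal.span_singleton_eq_bot]; exact hx
    · rw [h3, Ideal.span_singleton_mul_span_singleton, mul_comm x, hy']
  refine ⟨x', y', h1, ?_, ?_⟩
  · rw [← h6]; exact IsCoprime.mul_left (Mq_cop 𝔞) (Mq_cop 𝔠)
  · rw [h2, ← h6]; ring

lemma cls_same {𝔮 : Ideal (𝓞 K)} (htop : 𝔮 ≠ ⊤) {𝔞 𝔟 : Mq 𝔮} {x' y' : 𝓞 K} (hx' : x' - 1 ∈ 𝔮)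
    (hy : IsCoprime (Ideal.span {y'}) 𝔮)
    (h : Ideal.span {x'} * (𝔞 : Ideal (𝓞 K)) = Ideal.span {y'} * (𝔟 : Ideal (𝓞 K))) :
    cls (pi1 htop) 𝔞 = cls (pi1 htop) ⟨Ideal.span {y'}, hy⟩ * cls (pi1 htop) 𝔟 := by
  rw [← map_mul]
  have h1 : pi1 htop ⟨x', hx'⟩ * 𝔞 = ⟨Ideal.span {y'}, hy⟩ * 𝔟 := by
    apply Subtype.ext
    rw [Submonoid.coe_mul, Submonoid.coe_mul, pi1_coe]
    exact h
  rw [← h1, map_mul, cls_pi, one_mul]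

/-- the ideal class -/
noncomputable def cg {𝔮 : Ideal (𝓞 K)} (htop : 𝔮 ≠ ⊤) (𝔞 : Mq 𝔮) : ClassGroup (𝓞 K) :=
  ClassGroup.mk0 ⟨(𝔞 : Ideal (𝓞 K)), mem_nonZeroDivisors_iff_ne_zero.mpr (Mq_ne_bot htop 𝔞)⟩

lemma cg_eq {𝔮 : Ideal (𝓞 K)} (htop : 𝔮 ≠ ⊤) {𝔞 𝔟 : Mq 𝔮} (h : cg htop 𝔞 = cg htop 𝔟) :
    ∃ (x' y' : 𝓞 K) (_ : x' - 1 ∈ 𝔮) (_ : IsCoprime (Ideal.span {y'}) 𝔮),
      Ideal.span {x'} * (𝔞 : Ideal (𝓞 K)) = Ideal.span {y'} * (𝔟 : Ideal (𝓞 K)) := by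
  unfold cg at h
  rw [ClassGroup.mk0_eq_mk0_iff] at h
  obtain ⟨x, y, hx, -, h1⟩ := h
  exact same_class htop hx h1

theorem cls_card_le {𝔮 : Ideal (𝓞 K)} (hbot : 𝔮 ≠ ⊥) (htop : 𝔮 ≠ ⊤) :
    Finite (Cls (pi1 htop)) ∧
      Nat.card (Cls (pi1 htop)) ≤ Nat.card (𝓞 K ⧸ 𝔮)ˣ * Nat.card (ClassGroup (𝓞 K)) := by
  classical
  have : Finite (𝓞 K ⧸ 𝔮) := Ideal.finiteQuotientOfFreeOfNeBot 𝔮 hbot
  choose 𝔞 h𝔞 using exists_rep htop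
  obtain ⟨𝔟, h𝔟⟩ : ∃ 𝔟 : ClassGroup (𝓞 K) → Mq 𝔮, ∀ 𝔠 : Mq 𝔮, cg htop (𝔟 (cg htop 𝔠)) = cg htop 𝔠 := by
    refine ⟨fun C => if h : ∃ 𝔠 : Mq 𝔮, cg htop 𝔠 = C then h.choose else 1, fun 𝔠 => ?_⟩
    have h : ∃ 𝔠' : Mq 𝔮, cg htop 𝔠' = cg htop 𝔠 := ⟨𝔠, rfl⟩
    simp only [dif_pos h]
    exact h.choose_spec
  choose x' y' hx' hy' hxy using fun c => cg_eq htop (h𝔟 (𝔞 c)).symm
  have hinj : Function.Injective (fun c : Cls (pi1 htop) =>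
      ((isUnit_mk (hy' c)).unit, cg htop (𝔞 c))) := by
    intro c c' h
    obtain ⟨h1, h2⟩ := Prod.ext_iff.mp h
    have h1' : (isUnit_mk (hy' c)).unit = (isUnit_mk (hy' c')).unit := h1
    have h2' : cg htop (𝔞 c) = cg htop (𝔞 c') := h2
    have h3 : y' c - y' c' ∈ 𝔮 := by
      rw [← Ideal.Quotient.eq, ← IsUnit.unit_spec (isUnit_mk (hy' c)), h1', IsUnit.unit_spec]
    rw [← h𝔞 c, ← h𝔞 c', cls_same htop (hx' c) (hy' c) (hxy c),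
      cls_same htop (hx' c') (hy' c') (hxy c'), cls_congr htop (hy' c) (hy' c') h3, h2']
  have hfin := Finite.of_injective _ hinj
  refine ⟨hfin, ?_⟩
  rw [← Nat.card_prod]
  exact Nat.card_le_card_of_injective _ hinj

theorem card_units_le {𝔮 : Ideal (𝓞 K)} (hbot : 𝔮 ≠ ⊥) (htop : 𝔮 ≠ ⊤) [Finite (𝓞 K)ˣ] :
    Nat.card (𝓞 K ⧸ 𝔮)ˣ ≤ Nat.card (𝓞 K)ˣ * Nat.card (Cls (pi1 htop)) := by
  classical
  have : Finite (𝓞 K ⧸ 𝔮) := Ideal.finiteQuotientOfFreeOfNeBot 𝔮 hbot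
  have := (cls_card_le hbot htop).1
  have := Fintype.ofFinite (𝓞 K ⧸ 𝔮)ˣ
  have := Fintype.ofFinite (𝓞 K)ˣ
  have := Fintype.ofFinite (Cls (pi1 htop))
  have := Mq_cancel htop
  have hx : ∀ g : (𝓞 K ⧸ 𝔮)ˣ, ∃ x : 𝓞 K, Ideal.Quotient.mk 𝔮 x = g :=
    fun g => Ideal.Quotient.mk_surjective _
  choose x hx using hx
  have hc : ∀ g, IsCoprime (Ideal.span {x g}) 𝔮 := fun g => coprime_of_isUnit (by
    rw [hx]; exact g.isUnit)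
  have h := Finset.card_le_mul_card_image
    (f := fun g : (𝓞 K ⧸ 𝔮)ˣ => cls (pi1 htop) ⟨Ideal.span {x g}, hc g⟩) Finset.univ
    (Nat.card (𝓞 K)ˣ) (by
      intro c hc'
      obtain ⟨g₀, -, hg₀⟩ := Finset.mem_image.mp hc'
      have h1 : Finset.univ.filter (fun g : (𝓞 K ⧸ 𝔮)ˣ =>
          cls (pi1 htop) ⟨Ideal.span {x g}, hc g⟩ = c) ⊆
          (Finset.univ : Finset (𝓞 K)ˣ).image (fun u => Units.map (Ideal.Quotient.mk 𝔮).toMonoidHom u * g₀) := by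
        intro g hg
        have h2 := ((Finset.mem_filter.mp hg).2).trans hg₀.symm
        obtain ⟨a, b, hab⟩ := cls_eq h2
        have h3 := congrArg Subtype.val hab
        rw [Submonoid.coe_mul, Submonoid.coe_mul, pi1_coe, pi1_coe,
          Ideal.span_singleton_mul_span_singleton, Ideal.span_singleton_mul_span_singleton,
          Ideal.span_singleton_eq_span_singleton] at h3
        obtain ⟨u, hu⟩ := h3.symm
        rw [Finset.mem_image]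
        refine ⟨u, Finset.mem_univ _, ?_⟩
        ext
        have ha := (Ideal.Quotient.eq (I := 𝔮)).mpr a.2
        have hb := (Ideal.Quotient.eq (I := 𝔮)).mpr b.2
        have h4 := congrArg (Ideal.Quotient.mk 𝔮) hu
        rw [map_mul, map_mul, map_mul, ha, hb, map_one, one_mul, one_mul, hx, hx] at h4
        rw [Units.val_mul, mul_comm]
        exact h4
      refine (Finset.card_le_card h1).trans (Finset.card_image_le.trans ?_)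
      rw [Nat.card_eq_fintype_card]
      exact le_rfl)
  calc Nat.card (𝓞 K ⧸ 𝔮)ˣ = (Finset.univ : Finset (𝓞 K ⧸ 𝔮)ˣ).card := by
        rw [Nat.card_eq_fintype_card]; rfl
    _ ≤ _ := h
    _ ≤ Nat.card (𝓞 K)ˣ * Nat.card (Cls (pi1 htop)) := by
        refine Nat.mul_le_mul_left _ ?_
        rw [Nat.card_eq_fintype_card]
        exact Finset.card_le_univ _

/-- the characters of the ray class group modulo `𝔮` -/
def D1 {𝔮 : Ideal (𝓞 K)} (htop : 𝔮 ≠ ⊤) : Set (Mq 𝔮 →* ℂˣ) :=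
  {F | ∀ x : T1 htop, F (pi1 htop x) = 1}

lemma D1_card {𝔮 : Ideal (𝓞 K)} (hbot : 𝔮 ≠ ⊥) (htop : 𝔮 ≠ ⊤) :
    (D1 htop).Finite ∧ (D1 htop).ncard = Nat.card (Cls (pi1 htop)) := by
  have := (cls_card_le hbot htop).1
  have hfd := finite_dual (Cls (pi1 htop))
  have hsurj : D1 htop = Set.range (fun lam : Cls (pi1 htop) →* ℂˣ => lam.comp (cls (pi1 htop))) := by
    ext F
    constructor
    · intro hF
      obtain ⟨lam, hlam⟩ := exists_lam (pi1 htop) F 1 (fun a => by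
        rw [hF a, MonoidHom.one_apply])
      refine ⟨lam, ?_⟩
      ext x
      change ((lam (cls (pi1 htop) x) : ℂˣ) : ℂ) = F x
      rw [hlam x, MonoidHom.one_apply, one_mul]
    · rintro ⟨lam, rfl⟩ x
      change lam (cls (pi1 htop) (pi1 htop x)) = 1
      rw [cls_pi, map_one]
  have hinj : Function.Injective
      (fun lam : Cls (pi1 htop) →* ℂˣ => lam.comp (cls (pi1 htop))) := by
    intro l l' h
    refine MonoidHom.ext fun c => ?_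
    obtain ⟨𝔞, rfl⟩ := exists_rep htop c
    exact DFunLike.congr_fun h 𝔞
  refine ⟨hsurj ▸ Set.finite_range _, ?_⟩
  rw [hsurj, ← Set.image_univ, Set.ncard_image_of_injective _ hinj, Set.ncard_univ, card_dual]

/-- the characters which are trivial on the principal ideals -/
def D0 (𝔮 : Ideal (𝓞 K)) : Set (Mq 𝔮 →* ℂˣ) :=
  {F | ∀ (x : 𝓞 K) (hx : IsCoprime (Ideal.span {x}) 𝔮), F ⟨Ideal.span {x}, hx⟩ = 1}

lemma D0_sub {𝔮 : Ideal (𝓞 K)} (htop : 𝔮 ≠ ⊤) : D0 𝔮 ⊆ D1 htop := fun _ hF x =>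
  hF x (T1_cop x)

lemma D0_card {𝔮 : Ideal (𝓞 K)} (htop : 𝔮 ≠ ⊤) (hT : ∀ x : 𝓞 K, TPos K x) :
    (D0 𝔮).ncard ≤ Nat.card (ClassGroup (𝓞 K)) := by
  have hC := Mq_cancel htop
  have hrep : ∀ c : Cls (pq 𝔮), ∃ 𝔞 : Mq 𝔮, cls (pq 𝔮) 𝔞 = c := by
    intro c
    obtain ⟨a, b, hab⟩ := cls_div (pq 𝔮) c
    obtain ⟨x, 𝔠, h1, h2, -⟩ := exists_compl htop b
    refine ⟨a * 𝔠, ?_⟩
    have h3 : cls (pq 𝔮) (b * 𝔠) = 1 := by
      rw [← cls_pi (pq 𝔮) ⟨x, hT x, cop_one h1⟩]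
      congr 1
      apply Subtype.ext
      rw [pq_coe, Submonoid.coe_mul]
      exact h2.symm
    rw [map_mul] at h3
    rw [map_mul, ← hab, mul_assoc, h3, mul_one]
  choose 𝔞 h𝔞 using hrep
  have hinj : Function.Injective (fun c => cg htop (𝔞 c)) := by
    intro c c' h
    obtain ⟨x', y', hx', hy', hxy⟩ := cg_eq htop h
    rw [← h𝔞 c, ← h𝔞 c']
    refine cls_of_mul (π := pq 𝔮) (a := ⟨x', hT x', cop_one hx'⟩) (b := ⟨y', hT y', hy'⟩) ?_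
    apply Subtype.ext
    rw [Submonoid.coe_mul, Submonoid.coe_mul, pq_coe, pq_coe]
    exact hxy
  have hfin : Finite (Cls (pq 𝔮)) := Finite.of_injective _ hinj
  have hcard : Nat.card (Cls (pq 𝔮)) ≤ Nat.card (ClassGroup (𝓞 K)) :=
    Nat.card_le_card_of_injective _ hinj
  have hfd := finite_dual (Cls (pq 𝔮))
  have hsub : D0 𝔮 ⊆ Set.range (fun lam : Cls (pq 𝔮) →* ℂˣ => lam.comp (cls (pq 𝔮))) := by
    intro F hF
    obtain ⟨lam, hlam⟩ := exists_lam (pq 𝔮) F 1 (fun a => by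
      rw [MonoidHom.one_apply]; exact hF a (Tq_cop a))
    refine ⟨lam, ?_⟩
    ext x
    change ((lam (cls (pq 𝔮) x) : ℂˣ) : ℂ) = F x
    rw [hlam x, MonoidHom.one_apply, one_mul]
  refine (Set.ncard_le_ncard hsub (Set.finite_range _)).trans ?_
  rw [← Set.image_univ]
  refine (Set.ncard_image_le Set.finite_univ).trans ?_
  rw [Set.ncard_univ, card_dual]
  exact hcard

/-- **the large sieve** for a set of ideals in distinct ray classes -/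
theorem ls {𝔮 : Ideal (𝓞 K)} (hbot : 𝔮 ≠ ⊥) (htop : 𝔮 ≠ ⊤) (Y : Finset (Mq 𝔮 →* ℂˣ))
    (hY : ∀ F ∈ Y, F ∈ D1 htop) (S : Finset (Mq 𝔮))
    (hS : ∀ 𝔞 ∈ S, ∀ 𝔟 ∈ S, cls (pi1 htop) 𝔞 = cls (pi1 htop) 𝔟 → 𝔞 = 𝔟) (a : Mq 𝔮 → ℂ) :
    ∑ F ∈ Y, ‖∑ x ∈ S, a x * ((F x : ℂˣ) : ℂ)‖ ^ 2 ≤
      Nat.card (Cls (pi1 htop)) * ∑ x ∈ S, ‖a x‖ ^ 2 := by
  classical
  have := (cls_card_le hbot htop).1
  have := Fintype.ofFinite (Cls (pi1 htop))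
  have := Mq_cancel htop
  have h := bes_cls Pool.Agent.Y287.HC.t_bes (pi1 htop) 1 Y (fun F hF x => by
    rw [hY F hF x, MonoidHom.one_apply]) S a
  refine h.trans ?_
  rw [Nat.card_eq_fintype_card]
  refine mul_le_mul_of_nonneg_left ?_ (Nat.cast_nonneg _)
  rw [← Finset.sum_fiberwise S (cls (pi1 htop)) (fun x => ‖a x‖ ^ 2)]
  refine Finset.sum_le_sum fun c _ => ?_
  rcases (S.filter (fun x => cls (pi1 htop) x = c)).eq_empty_or_nonempty with h0 | ⟨x₀, hx₀⟩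
  · rw [h0, Finset.sum_empty, Finset.sum_empty, norm_zero]
    norm_num
  · have h1 : S.filter (fun x => cls (pi1 htop) x = c) = {x₀} := by
      ext x
      rw [Finset.mem_singleton]
      constructor
      · intro hx
        obtain ⟨h2, h3⟩ := Finset.mem_filter.mp hx
        obtain ⟨h4, h5⟩ := Finset.mem_filter.mp hx₀
        exact hS x h2 x₀ h4 (h3.trans h5.symm)
      · rintro rfl
        exact hx₀
    rw [h1, Finset.sum_singleton, Finset.sum_singleton, MonoidHom.one_apply, Units.val_one, mul_one]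

/-- separation -/
theorem sep (hN : ∀ x y : 𝓞 K, Ideal.absNorm (Ideal.span {x - y}) ≤
      2 * (Ideal.absNorm (Ideal.span {x}) + Ideal.absNorm (Ideal.span {y})))
    {𝔮 : Ideal (𝓞 K)} (htop : 𝔮 ≠ ⊤) {𝔞 𝔟 : Mq 𝔮} {M : ℕ}
    (h𝔞 : Ideal.absNorm (𝔞 : Ideal (𝓞 K)) ≤ M) (h𝔟 : Ideal.absNorm (𝔟 : Ideal (𝓞 K)) ≤ M)
    (hM : 4 * M < Ideal.absNorm 𝔮) (h : cls (pi1 htop) 𝔞 = cls (pi1 htop) 𝔟) : 𝔞 = 𝔟 := by
  have := Mq_cancel htop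
  obtain ⟨x, y, hxy⟩ := cls_eq h
  have h1 := congrArg Subtype.val hxy
  rw [Submonoid.coe_mul, Submonoid.coe_mul, pi1_coe, pi1_coe] at h1
  have hx0 : (x : 𝓞 K) ≠ 0 := ne_zero_of_cop htop (T1_cop x)
  by_cases hyx : (y : 𝓞 K) - (x : 𝓞 K) = 0
  · apply Subtype.ext
    rw [sub_eq_zero.mp hyx] at h1
    exact mul_left_cancel₀ (by
      rw [Ne, Ideal.zero_eq_bot, Ideal.span_singleton_eq_bot]; exact hx0) h1
  exfalso
  -- `(y - x) 𝔟 = (x) 𝔠`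
  have h2 : Ideal.span {(y : 𝓞 K) - (x : 𝓞 K)} * (𝔟 : Ideal (𝓞 K)) ≤ Ideal.span {(x : 𝓞 K)} := by
    have h3 : Ideal.span {(y : 𝓞 K) - (x : 𝓞 K)} ≤ Ideal.span {(y : 𝓞 K)} ⊔ Ideal.span {(x : 𝓞 K)} := by
      rw [Ideal.span_singleton_le_iff_mem]
      exact sub_mem (Ideal.mem_sup_left (Ideal.mem_span_singleton_self _))
        (Ideal.mem_sup_right (Ideal.mem_span_singleton_self _))
    refine (Ideal.mul_mono_left h3).trans ?_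
    rw [Ideal.sup_mul, ← h1, sup_le_iff]
    constructor
    · have := Ideal.mul_le_left (I := (𝔞 : Ideal (𝓞 K))) (J := Ideal.span {(x : 𝓞 K)})
      rw [mul_comm] at this
      first | exact this | exact Ideal.mul_le_left
    · exact Ideal.mul_le_left
  obtain ⟨𝔠, h𝔠⟩ := Ideal.dvd_iff_le.mpr h2
  have hq1 : (y : 𝓞 K) - (x : 𝓞 K) ∈ 𝔮 := by
    have hx := x.2
    have hy := y.2
    have : (y : 𝓞 K) - (x : 𝓞 K) = ((y : 𝓞 K) - 1) - ((x : 𝓞 K) - 1) := by ring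
    rw [this]; exact sub_mem hy hx
  have hq2 : 𝔮 ∣ Ideal.span {(x : 𝓞 K)} * 𝔠 := by
    rw [← h𝔠]
    exact (Ideal.dvd_iff_le.mpr ((Ideal.span_singleton_le_iff_mem 𝔮).mpr hq1)).mul_right _
  have hq3 : 𝔮 ∣ 𝔠 := (T1_cop x).symm.dvd_of_dvd_mul_left hq2
  have h𝔟0 : (𝔟 : Ideal (𝓞 K)) ≠ ⊥ := Mq_ne_bot htop 𝔟
  have hyx0 : Ideal.span {(y : 𝓞 K) - (x : 𝓞 K)} ≠ ⊥ := by
    rw [Ne, Ideal.span_singleton_eq_bot]; exact hyx
  have h𝔠0 : 𝔠 ≠ ⊥ := by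
    rintro rfl
    rw [← Ideal.zero_eq_bot, mul_zero] at h𝔠
    exact mul_ne_zero hyx0 h𝔟0 h𝔠
  have hle : Ideal.absNorm 𝔮 ≤ Ideal.absNorm 𝔠 :=
    Nat.le_of_dvd (absNorm_pos' h𝔠0) (Ideal.absNorm_dvd_absNorm_of_le (Ideal.dvd_iff_le.mp hq3))
  have e1 := congrArg Ideal.absNorm h𝔠
  have e2 := congrArg Ideal.absNorm h1
  rw [map_mul, map_mul] at e1 e2
  have e3 := hN (y : 𝓞 K) (x : 𝓞 K)
  have hX : 0 < Ideal.absNorm (Ideal.span {(x : 𝓞 K)}) := absNorm_pos' (by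
    rw [Ne, Ideal.span_singleton_eq_bot]; exact hx0)
  -- N(x) N(𝔠) = N(y-x) N(𝔟) ≤ 2 (N y + N x) N 𝔟 = 2 N x (N 𝔞 + N 𝔟)
  have e4 : Ideal.absNorm (Ideal.span {(x : 𝓞 K)}) * Ideal.absNorm 𝔠 ≤
      Ideal.absNorm (Ideal.span {(x : 𝓞 K)}) *
        (2 * (Ideal.absNorm (𝔞 : Ideal (𝓞 K)) + Ideal.absNorm (𝔟 : Ideal (𝓞 K)))) := by
    rw [← e1]
    calc _ ≤ 2 * (Ideal.absNorm (Ideal.span {(y : 𝓞 K)}) + Ideal.absNorm (Ideal.span {(x : 𝓞 K)})) *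
          Ideal.absNorm (𝔟 : Ideal (𝓞 K)) := Nat.mul_le_mul_right _ e3
      _ = 2 * (Ideal.absNorm (Ideal.span {(y : 𝓞 K)}) * Ideal.absNorm (𝔟 : Ideal (𝓞 K)) +
          Ideal.absNorm (Ideal.span {(x : 𝓞 K)}) * Ideal.absNorm (𝔟 : Ideal (𝓞 K))) := by ring
      _ = _ := by rw [← e2]; ring
  have e5 := Nat.le_of_mul_le_mul_left e4 hX
  omega

end

end Pool.Agent.Y773.IQ
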