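import Pool.Agent.Y773.IQ.Cl

/-! # Imaginary quadratic fields -/

set_option autoImplicit false
set_option linter.unusedSectionVars false

open NumberField

namespace Pool.Agent.Y773.IQ

open Pool.Agent.Y773 (TPos)

section

variable {K : Type} [Field K] [NumberField K] [IsTotallyComplex K]

lemma tpos_all (x : 𝓞 K) : TPos K x := by
  intro σ
  exfalso
  have h := IsTotallyComplex.complexEmbedding_not_isReal (K := K) (Complex.ofRealHom.comp σ)
  apply h
  rw [ComplexEmbedding.isReal_iff]
  ext y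
  rw [ComplexEmbedding.conjugate_coe_eq]
  simp

lemma card_places (h2 : Module.finrank ℚ K = 2) : Fintype.card (InfinitePlace K) = 1 := by
  rw [InfinitePlace.card_eq_nrRealPlaces_add_nrComplexPlaces,
    IsTotallyComplex.nrRealPlaces_eq_zero, zero_add]
  have := IsTotallyComplex.finrank (K := K)
  omega

lemma absNorm_eq (h2 : Module.finrank ℚ K = 2) (w : InfinitePlace K) (x : 𝓞 K) :
    (Ideal.absNorm (Ideal.span {x}) : ℝ) = w (x : K) ^ 2 := by
  have h1 := InfinitePlace.prod_eq_abs_norm (x : K)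
  obtain ⟨w0, hw0⟩ := Fintype.card_eq_one_iff.mp (card_places h2)
  have h3 : (Finset.univ : Finset (InfinitePlace K)) = {w} := by
    ext v
    rw [Finset.mem_singleton, hw0 w, ← hw0 v]
    exact ⟨fun _ => rfl, fun _ => Finset.mem_univ _⟩
  rw [h3, Finset.prod_singleton, IsTotallyComplex.mult_eq] at h1
  rw [h1, Ideal.absNorm_span_singleton, ← Algebra.coe_norm_int, Nat.cast_natAbs]
  push_cast
  rfl

lemma norm_sub_le' (h2 : Module.finrank ℚ K = 2) (x y : 𝓞 K) :
    Ideal.absNorm (Ideal.span {x - y}) ≤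
      2 * (Ideal.absNorm (Ideal.span {x}) + Ideal.absNorm (Ideal.span {y})) := by
  obtain ⟨w, -⟩ := Fintype.card_eq_one_iff.mp (card_places h2)
  have h : (Ideal.absNorm (Ideal.span {x - y}) : ℝ) ≤
      2 * ((Ideal.absNorm (Ideal.span {x}) : ℝ) + (Ideal.absNorm (Ideal.span {y}) : ℝ)) := by
    have hsub : ((x - y : 𝓞 K) : K) = (x : K) - (y : K) := map_sub (algebraMap (𝓞 K) K) x y
    rw [absNorm_eq h2 w, absNorm_eq h2 w, absNorm_eq h2 w, hsub]
    have h1 : w ((x : K) - (y : K)) ≤ w (x : K) + w (y : K) := by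
      rw [← InfinitePlace.norm_embedding_eq, ← InfinitePlace.norm_embedding_eq,
        ← InfinitePlace.norm_embedding_eq, map_sub]
      exact norm_sub_le _ _
    have h4 := apply_nonneg w ((x : K) - (y : K))
    nlinarith [sq_nonneg (w (x : K) - w (y : K))]
  exact_mod_cast h

lemma finite_units (h2 : Module.finrank ℚ K = 2) : Finite (𝓞 K)ˣ := by
  have h := Embeddings.finite_of_norm_le K ℂ 1
  have hinj : Function.Injective (fun u : (𝓞 K)ˣ => ((u : 𝓞 K) : K)) := fun u v huv =>
    Units.ext (RingOfIntegers.ext huv)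
  have hf : (Set.univ : Set (𝓞 K)ˣ).Finite := by
    refine (h.preimage hinj.injOn).subset fun u _ => ?_
    refine ⟨(u : 𝓞 K).isIntegral_coe, fun φ => ?_⟩
    have h1 := absNorm_eq h2 (InfinitePlace.mk φ) (u : 𝓞 K)
    have h3 : Ideal.absNorm (Ideal.span {(u : 𝓞 K)}) = 1 := by
      rw [Ideal.absNorm_eq_one_iff, Ideal.span_singleton_eq_top]
      exact u.isUnit
    rw [h3, InfinitePlace.apply] at h1
    have h4 := norm_nonneg (φ ((u : 𝓞 K) : K))
    push_cast at h1
    nlinarith
  exact Set.finite_univ_iff.mp hf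

end

end Pool.Agent.Y773.IQ
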