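import Mathlib

/-! # Finite commutative rings: lifting units; the divisor bound for ideals -/

set_option autoImplicit false

open NumberField

namespace Pool.Agent.Y773.IQ

section ring

theorem exists_pow_idem {M : Type} [Monoid M] [Finite M] (a : M) :
    ∃ n : ℕ, 0 < n ∧ a ^ n * a ^ n = a ^ n := by
  obtain ⟨i, j, hij, h⟩ := Finite.exists_ne_map_eq_of_infinite (fun n : ℕ => a ^ n)
  wlog hlt : i < j generalizing i j
  · exact this j i hij.symm h.symm (by omega)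
  obtain ⟨p, hp⟩ : ∃ p, p = j - i := ⟨_, rfl⟩
  have hp1 : 0 < p := by omega
  have hper : ∀ k t, i ≤ k → a ^ (k + t * p) = a ^ k := by
    intro k t hk
    induction t with
    | zero => simp
    | succ t ih =>
      have h1 : k + (t + 1) * p = ((k - i) + t * p) + j := by
        rw [Nat.succ_mul]; omega
      have h2 : ((k - i) + t * p) + i = k + t * p := by omega
      rw [h1, pow_add, ← h, ← pow_add, h2, ih]
  have hn : i ≤ (i + 1) * p := by nlinarith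
  refine ⟨(i + 1) * p, by positivity, ?_⟩
  rw [← pow_add]
  exact hper _ _ hn

theorem exists_unit_lift {R S : Type} [CommRing R] [Finite R] [CommRing S] (f : R →+* S)
    (hf : Function.Surjective f) {u : S} (hu : IsUnit u) : ∃ v : R, IsUnit v ∧ f v = u := by
  obtain ⟨a, rfl⟩ := hf u
  obtain ⟨n, hn, h⟩ := exists_pow_idem a
  obtain ⟨e, he⟩ : ∃ e, e = a ^ n := ⟨_, rfl⟩
  rw [← he] at h
  have h1 : f e = 1 := by
    have h1 : IsUnit (f e) := by rw [he, map_pow]; exact hu.pow n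
    have h2 : f e * f e = f e * 1 := by rw [← map_mul, h, mul_one]
    exact h1.mul_left_cancel h2
  have h3 : a * a ^ (n - 1) = e := by rw [← pow_succ', Nat.sub_add_cancel hn, he]
  refine ⟨a * e + (1 - e), ?_, ?_⟩
  · refine IsUnit.of_mul_eq_one (a ^ (n - 1) * e + (1 - e)) ?_
    calc (a * e + (1 - e)) * (a ^ (n - 1) * e + (1 - e))
        = (a * a ^ (n - 1)) * (e * e) + a * (e - e * e) + a ^ (n - 1) * (e - e * e) +
          (1 - 2 * e + e * e) := by ring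
      _ = e * e + (1 - 2 * e + e * e) := by rw [h3, h]; ring_nf; rw [sq, h]; ring
      _ = 1 := by rw [h]; ring
  · rw [map_add, map_mul, map_sub, h1, map_one, mul_one, sub_self, add_zero]

theorem exists_unit_of_span_eq {R : Type} [CommRing R] [Finite R] {x g : R}
    (h : Ideal.span {x} = Ideal.span {g}) : ∃ u : Rˣ, x = (u : R) * g := by
  have hx : x ∈ Ideal.span {g} := h ▸ Ideal.mem_span_singleton_self x
  have hg : g ∈ Ideal.span {x} := h ▸ Ideal.mem_span_singleton_self g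
  obtain ⟨a, ha⟩ := Ideal.mem_span_singleton'.mp hx
  obtain ⟨b, hb⟩ := Ideal.mem_span_singleton'.mp hg
  obtain ⟨J, hJ⟩ : ∃ J : Ideal R, ∀ r, r ∈ J ↔ r * g = 0 := by
    refine ⟨RingHom.ker (Ideal.Quotient.mk (⊥ : Ideal R)) ⊔ LinearMap.ker (LinearMap.toSpanSingleton R R g),
      fun r => ?_⟩
    rw [Ideal.mk_ker, bot_sup_eq, LinearMap.mem_ker, LinearMap.toSpanSingleton_apply, smul_eq_mul]
  have hu : IsUnit (Ideal.Quotient.mk J a) := by
    refine IsUnit.of_mul_eq_one (Ideal.Quotient.mk J b) ?_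
    rw [← map_mul, ← map_one (Ideal.Quotient.mk J), Ideal.Quotient.eq, hJ]
    have : (a * b - 1) * g = b * (a * g) - g := by ring
    rw [this, ha, hb, sub_self]
  obtain ⟨v, hv, hva⟩ := exists_unit_lift (Ideal.Quotient.mk J) Ideal.Quotient.mk_surjective hu
  rw [Ideal.Quotient.eq, hJ] at hva
  refine ⟨hv.unit, ?_⟩
  rw [IsUnit.unit_spec, ← ha]
  have : (v - a) * g = v * g - a * g := by ring
  rw [this, sub_eq_zero] at hva
  exact hva.symm

theorem card_le_ideal_units (R : Type) [CommRing R] [Finite R] :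
    Nat.card R ≤ Nat.card (Ideal R) * Nat.card Rˣ := by
  classical
  have := Fintype.ofFinite R
  have hI : Finite (Ideal R) := inferInstance
  have := Fintype.ofFinite (Ideal R)
  have h := Finset.card_le_mul_card_image (f := fun x : R => Ideal.span {x}) Finset.univ
    (Nat.card Rˣ) (by
      intro I hI
      obtain ⟨g, -, hg⟩ := Finset.mem_image.mp hI
      have h1 : Finset.univ.filter (fun x : R => Ideal.span {x} = I) ⊆
          (Finset.univ : Finset Rˣ).image (fun u : Rˣ => (u : R) * g) := by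
        intro x hx
        obtain ⟨u, hu⟩ := exists_unit_of_span_eq (((Finset.mem_filter.mp hx).2).trans hg.symm)
        exact Finset.mem_image.mpr ⟨u, Finset.mem_univ _, hu.symm⟩
      refine (Finset.card_le_card h1).trans (Finset.card_image_le.trans ?_)
      rw [Nat.card_eq_fintype_card]
      exact le_rfl)
  calc Nat.card R = (Finset.univ : Finset R).card := by
        rw [Nat.card_eq_fintype_card]; rfl
    _ ≤ _ := h
    _ ≤ Nat.card Rˣ * Nat.card (Ideal R) := by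
        refine Nat.mul_le_mul_left _ ?_
        rw [Nat.card_eq_fintype_card]
        exact Finset.card_le_univ _
    _ = _ := mul_comm _ _

end ring

section div

variable {K : Type} [Field K] [NumberField K]

/-- the divisors of an ideal -/
def dv (𝔮 : Ideal (𝓞 K)) : Set (Ideal (𝓞 K)) := {𝔡 | 𝔡 ∣ 𝔮}

lemma dv_finite {𝔮 : Ideal (𝓞 K)} (h : 𝔮 ≠ ⊥) : (dv 𝔮).Finite := by
  refine (Ideal.finite_setOfPred_absNorm_le (S := 𝓞 K) (Ideal.absNorm 𝔮)).subset ?_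
  intro 𝔡 h𝔡
  have h1 : Ideal.absNorm 𝔡 ∣ Ideal.absNorm 𝔮 := Ideal.absNorm_dvd_absNorm_of_le
    (Ideal.dvd_iff_le.mp h𝔡)
  exact Nat.le_of_dvd (Nat.pos_of_ne_zero (by rwa [Ne, Ideal.absNorm_eq_zero_iff])) h1

lemma dv_mul_le {𝔭 : Ideal (𝓞 K)} (hp : Prime 𝔭) (k : ℕ) {𝔮 : Ideal (𝓞 K)} (h : 𝔮 ≠ ⊥) :
    (dv (𝔭 ^ k * 𝔮)).ncard ≤ (k + 1) * (dv 𝔮).ncard := by
  classical
  have h1 : dv (𝔭 ^ k * 𝔮) ⊆
      (((Finset.range (k + 1)) ×ˢ (dv_finite h).toFinset).image (fun x => 𝔭 ^ x.1 * x.2) :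
        Finset (Ideal (𝓞 K))) := by
    intro 𝔡 h𝔡
    obtain ⟨a, b, ha, hb, hab⟩ := exists_dvd_and_dvd_of_dvd_mul h𝔡
    obtain ⟨i, hi, hai⟩ := (dvd_prime_pow hp k).mp ha
    rw [Finset.mem_coe, Finset.mem_image]
    refine ⟨(i, b), ?_, ?_⟩
    · rw [Finset.mem_product]
      exact ⟨Finset.mem_range.mpr (by simpa using Nat.lt_succ_of_le hi),
        (dv_finite h).mem_toFinset.mpr hb⟩
    · rw [hab, associated_iff_eq.mp hai]
  refine (Set.ncard_le_ncard h1 (Finset.finite_toSet _)).trans ?_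
  rw [Set.ncard_coe_finset]
  refine Finset.card_image_le.trans ?_
  rw [Finset.card_product, Finset.card_range, Set.ncard_eq_toFinset_card _ (dv_finite h)]

lemma dv_large {ε : ℝ} (_hε : 0 < ε) (𝔮 : Ideal (𝓞 K)) : 𝔮 ≠ ⊥ →
    (∀ 𝔭 : Ideal (𝓞 K), Prime 𝔭 → 𝔭 ∣ 𝔮 → (2 : ℝ) ≤ (Ideal.absNorm 𝔭 : ℝ) ^ ε) →
    ((dv 𝔮).ncard : ℝ) ≤ (Ideal.absNorm 𝔮 : ℝ) ^ ε := by
  induction 𝔮 using UniqueFactorizationMonoid.induction_on_prime with
  | h₁ => intro h; exact absurd rfl h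
  | h₂ x hx =>
    intro _ _
    have hx1 : x = 1 := by
      rw [Ideal.isUnit_iff] at hx
      rw [hx, Ideal.one_eq_top]
    subst hx1
    have h1 : dv (1 : Ideal (𝓞 K)) ⊆ {1} := fun 𝔡 h => by
      have h2 : 𝔡 ∣ 1 := h
      rw [Set.mem_singleton_iff]
      exact Ideal.isUnit_iff.mp (isUnit_of_dvd_one h2) |>.trans Ideal.one_eq_top.symm
    have h2 : (dv (1 : Ideal (𝓞 K))).ncard ≤ 1 :=
      (Set.ncard_le_ncard h1 (Set.finite_singleton _)).trans (by rw [Set.ncard_singleton])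
    have h3 : (Ideal.absNorm (1 : Ideal (𝓞 K)) : ℝ) = 1 := by
      rw [map_one]; norm_num
    rw [h3, Real.one_rpow]
    exact_mod_cast h2
  | h₃ a 𝔭 ha hp ih =>
    intro _ hdiv
    have ha' : a ≠ ⊥ := ha
    have h1 := ih ha' (fun 𝔯 h𝔯 h => hdiv 𝔯 h𝔯 (h.mul_left _))
    have h2 := dv_mul_le hp 1 ha'
    rw [pow_one] at h2
    have h3 := hdiv 𝔭 hp (dvd_mul_right _ _)
    have h4 : ((dv (𝔭 * a)).ncard : ℝ) ≤ 2 * (dv a).ncard := by
      have : (1 + 1) * (dv a).ncard = 2 * (dv a).ncard := by ring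
      rw [this] at h2
      exact_mod_cast h2
    rw [map_mul, Nat.cast_mul, Real.mul_rpow (Nat.cast_nonneg _) (Nat.cast_nonneg _)]
    calc ((dv (𝔭 * a)).ncard : ℝ) ≤ 2 * (dv a).ncard := h4
      _ ≤ (Ideal.absNorm 𝔭 : ℝ) ^ ε * (Ideal.absNorm a : ℝ) ^ ε :=
          mul_le_mul h3 h1 (Nat.cast_nonneg _) (by positivity)

lemma exists_C {ε : ℝ} (hε : 0 < ε) : ∃ C : ℝ, 1 ≤ C ∧ ∀ k : ℕ, ∀ N : ℝ, 2 ≤ N →
    (k : ℝ) + 1 ≤ C * (N ^ k) ^ ε := by
  have hl : 0 < Real.log 2 := Real.log_pos (by norm_num)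
  refine ⟨max 1 (1 / (ε * Real.log 2)), le_max_left _ _, fun k N hN => ?_⟩
  have h0 : (0 : ℝ) < N ^ k := by positivity
  have h1 : 1 + k * (ε * Real.log 2) ≤ (N ^ k) ^ ε := by
    rw [Real.rpow_def_of_pos h0, Real.log_pow]
    have h2 := Real.add_one_le_exp (k * Real.log N * ε)
    have h3 : k * (ε * Real.log 2) ≤ k * Real.log N * ε := by
      have h4 : Real.log 2 ≤ Real.log N := Real.log_le_log (by norm_num) hN
      have h5 : (0 : ℝ) ≤ k * ε := by positivity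
      nlinarith [mul_le_mul_of_nonneg_left h4 h5]
    linarith
  have hC : (1 : ℝ) ≤ max 1 (1 / (ε * Real.log 2)) * 1 := by
    rw [mul_one]; exact le_max_left _ _
  have hC2 : (k : ℝ) ≤ max 1 (1 / (ε * Real.log 2)) * (k * (ε * Real.log 2)) := by
    have h6 : 1 / (ε * Real.log 2) ≤ max 1 (1 / (ε * Real.log 2)) := le_max_right _ _
    have h7 : (0 : ℝ) ≤ k * (ε * Real.log 2) := by positivity
    calc (k : ℝ) = 1 / (ε * Real.log 2) * (k * (ε * Real.log 2)) := by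
          field_simp
      _ ≤ _ := mul_le_mul_of_nonneg_right h6 h7
  calc (k : ℝ) + 1 ≤ max 1 (1 / (ε * Real.log 2)) * (1 + k * (ε * Real.log 2)) := by linarith
    _ ≤ _ := mul_le_mul_of_nonneg_left h1 (by positivity)

lemma two_le_absNorm {𝔭 : Ideal (𝓞 K)} (hp : Prime 𝔭) : (2 : ℝ) ≤ (Ideal.absNorm 𝔭 : ℝ) := by
  have h0 : Ideal.absNorm 𝔭 ≠ 0 := by
    rw [Ne, Ideal.absNorm_eq_zero_iff]; exact hp.ne_zero
  have h1 : Ideal.absNorm 𝔭 ≠ 1 := by
    rw [Ne, Ideal.absNorm_eq_one_iff, ← Ideal.one_eq_top]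
    exact fun h => hp.not_isUnit (h ▸ isUnit_one)
  exact_mod_cast (by omega : 2 ≤ Ideal.absNorm 𝔭)

theorem divisor_bound (K : Type) [Field K] [NumberField K] {ε : ℝ} (hε : 0 < ε) :
    ∃ C : ℝ, 1 ≤ C ∧ ∀ 𝔮 : Ideal (𝓞 K), 𝔮 ≠ ⊥ →
      ((dv 𝔮).ncard : ℝ) ≤ C * (Ideal.absNorm 𝔮 : ℝ) ^ ε := by
  classical
  obtain ⟨C, hC, hk⟩ := exists_C hε
  have key : ∀ S : Finset (Ideal (𝓞 K)), ∀ 𝔮 : Ideal (𝓞 K), 𝔮 ≠ ⊥ →
      (∀ 𝔭 : Ideal (𝓞 K), Prime 𝔭 → 𝔭 ∣ 𝔮 → 𝔭 ∈ S ∨ (2 : ℝ) ≤ (Ideal.absNorm 𝔭 : ℝ) ^ ε) →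
      ((dv 𝔮).ncard : ℝ) ≤ C ^ S.card * (Ideal.absNorm 𝔮 : ℝ) ^ ε := by
    intro S
    induction S using Finset.induction_on with
    | empty =>
      intro 𝔮 h𝔮 h
      rw [Finset.card_empty, pow_zero, one_mul]
      exact dv_large hε 𝔮 h𝔮 (fun 𝔭 hp hd => (h 𝔭 hp hd).resolve_left (by simp))
    | insert 𝔭₀ S hS ih =>
      intro 𝔮 h𝔮 h
      rw [Finset.card_insert_of_notMem hS]
      by_cases hp0 : Prime 𝔭₀
      · obtain ⟨𝔯, hkr, hnd⟩ := (FiniteMultiplicity.of_not_isUnit (a := 𝔭₀) (b := 𝔮)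
          hp0.not_isUnit h𝔮).exists_eq_pow_mul_and_not_dvd
        set k := multiplicity 𝔭₀ 𝔮 with hk'
        have h𝔯 : 𝔯 ≠ ⊥ := by
          rintro rfl
          apply h𝔮
          rw [hkr, ← Ideal.zero_eq_bot, mul_zero]
        have h1 := ih 𝔯 h𝔯 (fun 𝔭 hp hd => by
          rcases h 𝔭 hp (hkr ▸ hd.mul_left _) with h2 | h2
          · rcases Finset.mem_insert.mp h2 with h3 | h3
            · exact absurd (h3 ▸ hd) hnd
            · exact Or.inl h3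
          · exact Or.inr h2)
        have h2 := dv_mul_le hp0 k h𝔯
        rw [← hkr] at h2
        have h3 : ((dv 𝔮).ncard : ℝ) ≤ ((k : ℝ) + 1) * (dv 𝔯).ncard := by exact_mod_cast h2
        have h4 : (Ideal.absNorm 𝔮 : ℝ) ^ ε =
            ((Ideal.absNorm 𝔭₀ : ℝ) ^ k) ^ ε * (Ideal.absNorm 𝔯 : ℝ) ^ ε := by
          rw [hkr, map_mul, map_pow, Nat.cast_mul, Nat.cast_pow,
            Real.mul_rpow (by positivity) (Nat.cast_nonneg _)]
        rw [h4, pow_succ]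
        calc ((dv 𝔮).ncard : ℝ) ≤ ((k : ℝ) + 1) * (dv 𝔯).ncard := h3
          _ ≤ (C * ((Ideal.absNorm 𝔭₀ : ℝ) ^ k) ^ ε) * (C ^ S.card * (Ideal.absNorm 𝔯 : ℝ) ^ ε) :=
              mul_le_mul (hk k _ (two_le_absNorm hp0)) h1 (Nat.cast_nonneg _) (by positivity)
          _ = _ := by ring
      · have h1 := ih 𝔮 h𝔮 (fun 𝔭 hp hd => by
          rcases h 𝔭 hp hd with h2 | h2
          · rcases Finset.mem_insert.mp h2 with h3 | h3
            · exact absurd (h3 ▸ hp) hp0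
            · exact Or.inl h3
          · exact Or.inr h2)
        refine h1.trans ?_
        rw [pow_succ]
        have : (0 : ℝ) ≤ C ^ S.card * (Ideal.absNorm 𝔮 : ℝ) ^ ε := by positivity
        nlinarith
  have hfin : {𝔭 : Ideal (𝓞 K) | (Ideal.absNorm 𝔭 : ℝ) ^ ε < 2}.Finite := by
    refine (Ideal.finite_setOfPred_absNorm_le (S := 𝓞 K) ⌈(2 : ℝ) ^ (1 / ε)⌉₊).subset ?_
    intro 𝔭 h
    have h1 : (Ideal.absNorm 𝔭 : ℝ) ≤ (2 : ℝ) ^ (1 / ε) := by
      have h2 : (Ideal.absNorm 𝔭 : ℝ) = ((Ideal.absNorm 𝔭 : ℝ) ^ ε) ^ (1 / ε) := by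
        rw [← Real.rpow_mul (Nat.cast_nonneg _), mul_one_div_cancel hε.ne', Real.rpow_one]
      rw [h2]
      exact Real.rpow_le_rpow (by positivity) (le_of_lt h) (by positivity)
    have h3 := h1.trans (Nat.le_ceil _)
    exact_mod_cast h3
  refine ⟨C ^ hfin.toFinset.card, one_le_pow₀ hC, fun 𝔮 h𝔮 => key _ 𝔮 h𝔮 fun 𝔭 _ _ => ?_⟩
  by_cases h : (2 : ℝ) ≤ (Ideal.absNorm 𝔭 : ℝ) ^ ε
  · exact Or.inr h
  · exact Or.inl (hfin.mem_toFinset.mpr (not_le.mp h))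

/-- `N(𝔮) ≤ τ(𝔮) φ(𝔮)` -/
theorem norm_le_tau_phi {𝔮 : Ideal (𝓞 K)} (h : 𝔮 ≠ ⊥) :
    Ideal.absNorm 𝔮 ≤ (dv 𝔮).ncard * Nat.card (𝓞 K ⧸ 𝔮)ˣ := by
  have : Finite (𝓞 K ⧸ 𝔮) := Ideal.finiteQuotientOfFreeOfNeBot 𝔮 h
  have h1 := card_le_ideal_units (𝓞 K ⧸ 𝔮)
  have h2 : Ideal.absNorm 𝔮 = Nat.card (𝓞 K ⧸ 𝔮) := rfl
  rw [h2]
  refine h1.trans (Nat.mul_le_mul_right _ ?_)
  have h3 : Nat.card (Ideal (𝓞 K ⧸ 𝔮)) ≤ Nat.card (dv 𝔮) := by
    have := (dv_finite h).to_subtype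
    refine Nat.card_le_card_of_injective (fun I => ⟨I.comap (Ideal.Quotient.mk 𝔮), ?_⟩) ?_
    · change _ ∣ 𝔮
      rw [Ideal.dvd_iff_le]
      intro x hx
      rw [Ideal.mem_comap, Ideal.Quotient.eq_zero_iff_mem.mpr hx]
      exact I.zero_mem
    · intro I J hIJ
      have := congrArg Subtype.val hIJ
      exact Ideal.comap_injective_of_surjective _ Ideal.Quotient.mk_surjective this
  exact h3

end div

end Pool.Agent.Y773.IQ
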